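import Mathlib

/-!
# The gcd recursion for prime triples: the finite model

The pairs `(n, T)` modulo `Q` with the step `(n, T) ↦ (n + 1, T - gcd(T + b(n+1), n + 1 + b(n+1), Q) + 1)`.
-/

set_option autoImplicit false

namespace Pool.Agent.K9h55.GV

open Finset

/-- the 3-periodic sequence on the integers -/
def bz (n : ℤ) : ℤ := if n % 3 = 1 then 2 else if n % 3 = 2 then 6 else 0

lemma bz_cases (n : ℤ) : bz n = 0 ∨ bz n = 2 ∨ bz n = 6 := by
  unfold bz; split_ifs <;> simp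

lemma bz_congr {n n' : ℤ} (h : n % 3 = n' % 3) : bz n = bz n' := by
  unfold bz; rw [h]

/-- the gcd of the recursion, cut off at `Q` -/
def gam (Q : ℕ) (n T : ℤ) : ℕ := Nat.gcd (Int.gcd (T + bz n) (n + bz n)) Q

lemma dvd_gam {Q : ℕ} {n T : ℤ} {d : ℕ} :
    d ∣ gam Q n T ↔ ((d : ℤ) ∣ T + bz n) ∧ ((d : ℤ) ∣ n + bz n) ∧ d ∣ Q := by
  unfold gam
  rw [Nat.dvd_gcd_iff, ← Int.natCast_dvd_natCast (n := Int.gcd _ _), Int.dvd_coe_gcd_iff, and_assoc]

lemma gam_pos {Q : ℕ} (hQ : 0 < Q) (n T : ℤ) : 0 < gam Q n T := Nat.gcd_pos_of_pos_right _ hQ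

lemma gam_dvd (Q : ℕ) (n T : ℤ) : gam Q n T ∣ Q := Nat.gcd_dvd_right _ _

lemma emod3_congr {Q : ℕ} (h3 : 3 ∣ Q) {n n' : ℤ} (h : (n : ZMod Q) = n') : n % 3 = n' % 3 := by
  have h1 := (ZMod.intCast_eq_intCast_iff_dvd_sub n n' Q).mp h
  have h2 : (3 : ℤ) ∣ n' - n := dvd_trans (by exact_mod_cast h3) h1
  omega

lemma gam_congr {Q : ℕ} (h3 : 3 ∣ Q) {n n' T T' : ℤ} (hn : (n : ZMod Q) = n')
    (hT : (T : ZMod Q) = T') : gam Q n T = gam Q n' T' := by
  have hb : bz n = bz n' := bz_congr (emod3_congr h3 hn)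
  have h1 := (ZMod.intCast_eq_intCast_iff_dvd_sub n n' Q).mp hn
  have h2 := (ZMod.intCast_eq_intCast_iff_dvd_sub T T' Q).mp hT
  have key : ∀ d : ℕ, d ∣ gam Q n T ↔ d ∣ gam Q n' T' := by
    intro d
    rw [dvd_gam, dvd_gam]
    have aux : d ∣ Q → (((d : ℤ) ∣ T + bz n) ↔ ((d : ℤ) ∣ T' + bz n')) := by
      intro hd
      have hd' : (d : ℤ) ∣ T' - T := dvd_trans (by exact_mod_cast hd) h2
      rw [← hb]
      constructor
      · intro h
        have := dvd_add h hd'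
        rwa [show T + bz n + (T' - T) = T' + bz n by ring] at this
      · intro h
        have := dvd_sub h hd'
        rwa [show T' + bz n - (T' - T) = T + bz n by ring] at this
    have aux2 : d ∣ Q → (((d : ℤ) ∣ n + bz n) ↔ ((d : ℤ) ∣ n' + bz n')) := by
      intro hd
      have hd' : (d : ℤ) ∣ n' - n := dvd_trans (by exact_mod_cast hd) h1
      rw [← hb]
      constructor
      · intro h
        have := dvd_add h hd'
        rwa [show n + bz n + (n' - n) = n' + bz n by ring] at this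
      · intro h
        have := dvd_sub h hd'
        rwa [show n' + bz n - (n' - n) = n + bz n by ring] at this
    constructor
    · rintro ⟨ha, hb', hc⟩
      exact ⟨(aux hc).mp ha, (aux2 hc).mp hb', hc⟩
    · rintro ⟨ha, hb', hc⟩
      exact ⟨(aux hc).mpr ha, (aux2 hc).mpr hb', hc⟩
  exact Nat.dvd_antisymm ((key _).mp dvd_rfl) ((key _).mpr dvd_rfl)

/-- `(n, T)` is the end of `k` steps of the recursion cut off at `Q` -/
def R (Q : ℕ) : ℕ → ℤ → ℤ → Prop
  | 0, _, _ => True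
  | (k + 1), n, T => ∃ T' : ℤ, R Q k (n - 1) T' ∧ T = T' - gam Q n T' + 1

lemma R_anti {Q : ℕ} : ∀ {k : ℕ} {n T : ℤ}, R Q (k + 1) n T → R Q k n T
  | 0, _, _, _ => trivial
  | (_ + 1), _, _, ⟨T', h, e⟩ => ⟨T', R_anti h, e⟩

lemma R_congr {Q : ℕ} (h3 : 3 ∣ Q) : ∀ {k : ℕ} {n n' T T' : ℤ}, (n : ZMod Q) = n' →
    (T : ZMod Q) = T' → R Q k n T → R Q k n' T'
  | 0, _, _, _, _, _, _, _ => trivial
  | (k + 1), n, n', T, T', hn, hT, ⟨U, h, e⟩ => by
    refine ⟨U + (T' - T), ?_, ?_⟩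
    · refine R_congr h3 ?_ ?_ h
      · push_cast; rw [hn]
      · push_cast; rw [hT]; ring
    · have : gam Q n' (U + (T' - T)) = gam Q n U := by
        refine gam_congr h3 hn.symm ?_
        push_cast; rw [hT]; ring
      rw [this, e]; ring

/-- removing a prime `r` from the modulus does not matter as long as `r` divides no `n + b(n)` -/
lemma gam_remove {Q1 r e : ℕ} (hr : r.Prime) {n T : ℤ} (h : ¬ (r : ℤ) ∣ n + bz n) :
    gam (Q1 * r ^ e) n T = gam Q1 n T := by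
  unfold gam
  apply Nat.Coprime.gcd_mul_right_cancel_right
  apply Nat.Coprime.pow_left
  rw [Nat.Prime.coprime_iff_not_dvd hr]
  intro hd
  apply h
  rw [← Int.natCast_dvd_natCast, Int.dvd_coe_gcd_iff] at hd
  exact hd.2

lemma R_remove {Q1 r e : ℕ} (hr : r.Prime) : ∀ {k : ℕ} {n T : ℤ},
    (∀ i : ℕ, i < k → ¬ (r : ℤ) ∣ (n - i) + bz (n - i)) →
    (R (Q1 * r ^ e) k n T ↔ R Q1 k n T)
  | 0, _, _, _ => Iff.rfl
  | (k + 1), n, T, h => by
    have h0 := h 0 (by omega)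
    simp only [Nat.cast_zero, sub_zero] at h0
    have hk : ∀ i : ℕ, i < k → ¬ (r : ℤ) ∣ (n - 1 - i) + bz (n - 1 - i) := by
      intro i hi
      have := h (i + 1) (by omega)
      push_cast at this
      rwa [show n - ((i : ℤ) + 1) = n - 1 - i by ring] at this
    simp only [R]
    constructor
    · rintro ⟨T', h1, h2⟩
      rw [gam_remove hr h0] at h2
      exact ⟨T', (R_remove hr hk).mp h1, h2⟩
    · rintro ⟨T', h1, h2⟩
      refine ⟨T', (R_remove hr hk).mpr h1, ?_⟩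
      rw [gam_remove hr h0]
      exact h2

/-! ### residues -/

section resid

variable (Q : ℕ) [NeZero Q]

/-- the gcd of the step that leaves `x` -/
def gx (x : ZMod Q × ZMod Q) : ℕ := gam Q ((x.1.val : ℤ) + 1) (x.2.val : ℤ)

/-- the step -/
def St (x : ZMod Q × ZMod Q) : ZMod Q × ZMod Q := (x.1 + 1, x.2 - (gx Q x : ℕ) + 1)

/-- the image of `k` steps -/
def Om (k : ℕ) (x : ZMod Q × ZMod Q) : Prop := R Q k (x.1.val : ℤ) (x.2.val : ℤ)

variable {Q}

lemma val_cast (x : ZMod Q) : (((x.val : ℤ)) : ZMod Q) = x := by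
  rw [Int.cast_natCast, ZMod.natCast_zmod_val]

lemma gx_eq (h3 : 3 ∣ Q) {x : ZMod Q × ZMod Q} {n T : ℤ} (hn : (n : ZMod Q) = x.1)
    (hT : (T : ZMod Q) = x.2) : gx Q x = gam Q (n + 1) T := by
  unfold gx
  apply gam_congr h3
  · push_cast; rw [hn, ZMod.natCast_zmod_val]
  · rw [hT, val_cast]

lemma Om_iff (h3 : 3 ∣ Q) {k : ℕ} {x : ZMod Q × ZMod Q} {n T : ℤ} (hn : (n : ZMod Q) = x.1)
    (hT : (T : ZMod Q) = x.2) : Om Q k x ↔ R Q k n T := by
  unfold Om
  constructor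
  · exact R_congr h3 (by rw [hn, val_cast]) (by rw [hT, val_cast])
  · exact R_congr h3 (by rw [hn, val_cast]) (by rw [hT, val_cast])

lemma gx_pos (x : ZMod Q × ZMod Q) : 0 < gx Q x := gam_pos (NeZero.pos Q) _ _

lemma Om_anti {k : ℕ} {x : ZMod Q × ZMod Q} (h : Om Q (k + 1) x) : Om Q k x := R_anti h

lemma Om_anti' {k l : ℕ} (hkl : k ≤ l) {x : ZMod Q × ZMod Q} (h : Om Q l x) : Om Q k x := by
  induction l, hkl using Nat.le_induction with
  | base => exact h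
  | succ l _ ih => exact ih (Om_anti h)

lemma Om_step (h3 : 3 ∣ Q) {k : ℕ} {x : ZMod Q × ZMod Q} (h : Om Q k x) : Om Q (k + 1) (St Q x) := by
  rw [Om_iff h3 (n := (x.1.val : ℤ) + 1) (T := (x.2.val : ℤ) - (gx Q x : ℕ) + 1)]
  · refine ⟨(x.2.val : ℤ), ?_, ?_⟩
    · rw [show (x.1.val : ℤ) + 1 - 1 = (x.1.val : ℤ) by ring]
      exact h
    · rfl
  · push_cast; rw [ZMod.natCast_zmod_val]; rfl
  · push_cast; rw [ZMod.natCast_zmod_val]; rfl

lemma Om_succ (h3 : 3 ∣ Q) {k : ℕ} {x : ZMod Q × ZMod Q} (h : Om Q (k + 1) x) :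
    ∃ y, Om Q k y ∧ St Q y = x := by
  obtain ⟨T', h1, h2⟩ := h
  refine ⟨(x.1 - 1, (T' : ZMod Q)), ?_, ?_⟩
  · rw [Om_iff h3 (n := (x.1.val : ℤ) - 1) (T := T')]
    · exact h1
    · push_cast; rw [ZMod.natCast_zmod_val]
    · rfl
  · have hg : gx Q (x.1 - 1, (T' : ZMod Q)) = gam Q (x.1.val : ℤ) T' := by
      rw [gx_eq h3 (n := (x.1.val : ℤ) - 1) (T := T')]
      · congr 1; ring
      · push_cast; rw [ZMod.natCast_zmod_val]
      · rfl
    unfold St
    rw [hg]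
    apply Prod.ext
    · show x.1 - 1 + 1 = x.1
      ring
    · show (T' : ZMod Q) - (gam Q (x.1.val : ℤ) T' : ℕ) + 1 = x.2
      have := congrArg (fun z : ℤ => (z : ZMod Q)) h2
      simp only [val_cast] at this
      rw [this]
      push_cast
      ring

end resid

end Pool.Agent.K9h55.GV
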