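import Mathlib

/-!
# Uniform probabilities on pairs of residues
-/

set_option autoImplicit false

namespace Pool.Agent.K9h55.GV

open Finset

lemma card_fiber_all {G H : Type*} [AddGroup G] [AddGroup H] [Fintype G] [DecidableEq H]
    (φ : G →+ H) (hφ : Function.Surjective φ) (y : H) :
    (univ.filter (fun x => φ x = y)).card = (univ.filter (fun x => φ x = 0)).card := by
  obtain ⟨x0, hx0⟩ := hφ y
  refine Finset.card_bij' (fun x _ => x - x0) (fun x _ => x + x0) ?_ ?_ ?_ ?_
  · intro x hx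
    simp only [mem_filter, mem_univ, true_and] at hx ⊢
    rw [map_sub, hx, hx0, sub_self]
  · intro x hx
    simp only [mem_filter, mem_univ, true_and] at hx ⊢
    rw [map_add, hx, hx0, zero_add]
  · intro x _; simp
  · intro x _; simp

open Classical in
lemma card_preimage_mul {G H : Type*} [AddGroup G] [AddGroup H] [Fintype G] [Fintype H]
    (φ : G →+ H) (hφ : Function.Surjective φ) (P : H → Prop) :
    (univ.filter (fun x => P (φ x))).card * Fintype.card H
      = (univ.filter P).card * Fintype.card G := by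
  classical
  set c := (univ.filter (fun x => φ x = 0)).card with hc
  have h1 : ∀ P : H → Prop, (univ.filter (fun x => P (φ x))).card = (univ.filter P).card * c := by
    intro P
    rw [Finset.card_eq_sum_card_fiberwise (f := φ) (t := univ.filter P)]
    · rw [Finset.sum_congr rfl (g := fun _ => c), Finset.sum_const, smul_eq_mul]
      intro y hy
      rw [hc, ← card_fiber_all φ hφ y]
      congr 1
      ext x
      simp only [mem_filter, mem_univ, true_and] at hy ⊢
      constructor
      · rintro ⟨_, h⟩; exact h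
      · intro h; exact ⟨h ▸ hy, h⟩
    · intro x hx
      simpa using hx
  have h2 := h1 (fun _ => True)
  simp only [Finset.filter_true] at h2
  rw [h1 P]
  have h3 : Fintype.card G = Fintype.card H * c := by
    rw [← Finset.card_univ, h2, Finset.card_univ]
  rw [h3]
  ring

section

variable (Q : ℕ) [NeZero Q]

open Classical in
/-- the uniform probability of an event for pairs of residues modulo `Q` -/
noncomputable def pr (P : ZMod Q × ZMod Q → Prop) : ℝ :=
  ((univ.filter P).card : ℝ) / (Q : ℝ) ^ 2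

lemma qpos : (0 : ℝ) < (Q : ℝ) := by exact_mod_cast NeZero.pos Q

lemma pr_eq (P : ZMod Q × ZMod Q → Prop) [DecidablePred P] :
    pr Q P = ((univ.filter P).card : ℝ) / (Q : ℝ) ^ 2 := by
  unfold pr
  congr!

lemma pr_nonneg (P : ZMod Q × ZMod Q → Prop) : 0 ≤ pr Q P := by
  unfold pr; positivity

lemma card_pair : Fintype.card (ZMod Q × ZMod Q) = Q ^ 2 := by
  rw [Fintype.card_prod, ZMod.card, sq]

lemma pr_le_one (P : ZMod Q × ZMod Q → Prop) : pr Q P ≤ 1 := by
  unfold pr
  rw [div_le_one (pow_pos (qpos Q) 2)]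
  classical
  have h1 := Finset.card_le_univ (univ.filter P)
  rw [card_pair] at h1
  have h2 : ((univ.filter P).card : ℝ) ≤ (Q : ℝ) ^ 2 := by exact_mod_cast h1
  convert h2

variable {Q}

lemma pr_surj {P P' : ZMod Q × ZMod Q → Prop} (φ : ZMod Q × ZMod Q → ZMod Q × ZMod Q)
    (h : ∀ x, P x → ∃ y, P' y ∧ φ y = x) : pr Q P ≤ pr Q P' := by
  classical
  unfold pr
  apply div_le_div_of_nonneg_right _ (pow_pos (qpos Q) 2).le
  have : (univ.filter P) ⊆ (univ.filter P').image φ := by
    intro x hx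
    obtain ⟨y, hy, e⟩ := h x (Finset.mem_filter.mp hx).2
    exact Finset.mem_image.mpr ⟨y, by simp [hy], e⟩
  have h2 := (Finset.card_le_card this).trans Finset.card_image_le
  exact_mod_cast h2

lemma pr_mono {P P' : ZMod Q × ZMod Q → Prop} (h : ∀ x, P x → P' x) : pr Q P ≤ pr Q P' :=
  pr_surj id fun x hx => ⟨x, h x hx, rfl⟩

lemma pr_congr {P P' : ZMod Q × ZMod Q → Prop} (h : ∀ x, P x ↔ P' x) : pr Q P = pr Q P' :=
  le_antisymm (pr_mono fun x => (h x).mp) (pr_mono fun x => (h x).mpr)

lemma pr_shift (P : ZMod Q × ZMod Q → Prop) (s : ZMod Q × ZMod Q) :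
    pr Q (fun x => P (x - s)) = pr Q P := by
  apply le_antisymm
  · exact pr_surj (fun x => x + s) fun x hx => ⟨x - s, hx, by simp⟩
  · exact pr_surj (fun x => x - s) fun x hx => ⟨x + s, by simpa using hx, by simp⟩

lemma pr_bUnion {ι : Type*} (s : Finset ι) {P : ZMod Q × ZMod Q → Prop}
    {F : ι → ZMod Q × ZMod Q → Prop} (h : ∀ x, P x → ∃ i ∈ s, F i x) :
    pr Q P ≤ ∑ i ∈ s, pr Q (F i) := by
  classical
  unfold pr
  rw [← Finset.sum_div]
  apply div_le_div_of_nonneg_right _ (pow_pos (qpos Q) 2).le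
  have h1 : (univ.filter P) ⊆ s.biUnion (fun i => univ.filter (F i)) := by
    intro x hx
    obtain ⟨i, hi, hx'⟩ := h x (Finset.mem_filter.mp hx).2
    exact Finset.mem_biUnion.mpr ⟨i, hi, by simp [hx']⟩
  have h2 := (Finset.card_le_card h1).trans Finset.card_biUnion_le
  exact_mod_cast h2

lemma pr_or {P P1 P2 : ZMod Q × ZMod Q → Prop} (h : ∀ x, P x → P1 x ∨ P2 x) :
    pr Q P ≤ pr Q P1 + pr Q P2 := by
  have := pr_bUnion (Q := Q) (univ : Finset Bool) (P := P) (F := fun b => if b then P1 else P2)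
    (by
      intro x hx
      rcases h x hx with h1 | h1
      · exact ⟨true, by simp, by simpa using h1⟩
      · exact ⟨false, by simp, by simpa using h1⟩)
  simpa using this

lemma pr_disj {ι : Type*} (s : Finset ι) {P : ZMod Q × ZMod Q → Prop}
    {F : ι → ZMod Q × ZMod Q → Prop} (h : ∀ i ∈ s, ∀ x, F i x → P x)
    (hd : ∀ i ∈ s, ∀ j ∈ s, ∀ x, F i x → F j x → i = j) :
    ∑ i ∈ s, pr Q (F i) ≤ pr Q P := by
  classical
  unfold pr
  rw [← Finset.sum_div]
  apply div_le_div_of_nonneg_right _ (pow_pos (qpos Q) 2).le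
  have h1 : s.biUnion (fun i => univ.filter (F i)) ⊆ (univ.filter P) := by
    intro x hx
    obtain ⟨i, hi, hx'⟩ := Finset.mem_biUnion.mp hx
    simp only [mem_filter, mem_univ, true_and] at hx' ⊢
    exact h i hi x hx'
  have h2 := Finset.card_le_card h1
  rw [Finset.card_biUnion] at h2
  · exact_mod_cast h2
  · intro i hi j hj hij
    rw [Function.onFun, Finset.disjoint_left]
    intro x hx hx'
    simp only [mem_filter, mem_univ, true_and] at hx hx'
    exact hij (hd i hi j hj x hx hx')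

lemma pr_diff {P P' : ZMod Q × ZMod Q → Prop} (h : ∀ x, P' x → P x) :
    pr Q (fun x => P x ∧ ¬ P' x) ≤ pr Q P - pr Q P' := by
  have h1 := pr_disj (Q := Q) (univ : Finset Bool) (P := P)
    (F := fun b => if b then (fun x => P x ∧ ¬ P' x) else P') (by
      intro i _ x hx
      cases i
      · exact h x (by simpa using hx)
      · exact (by simpa using hx : P x ∧ ¬ P' x).1) (by
      intro i _ j _ x hi hj
      cases i <;> cases j <;> simp at hi hj ⊢
      · exact hj.2 hi
      · exact hi.2 hj)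
  simp only [Fintype.sum_bool, if_true] at h1
  have h2 : (if false = true then (fun x => P x ∧ ¬ P' x) else P') = P' := by simp
  rw [h2] at h1
  linarith

/-- reduction of pairs of residues -/
def red {Q M : ℕ} (h : M ∣ Q) : ZMod Q × ZMod Q →+ ZMod M × ZMod M :=
  ((ZMod.castHom h (ZMod M)).toAddMonoidHom).prodMap ((ZMod.castHom h (ZMod M)).toAddMonoidHom)

lemma red_surj {Q M : ℕ} (h : M ∣ Q) : Function.Surjective (red h) := by
  rintro ⟨a, b⟩
  obtain ⟨a', ha⟩ := ZMod.castHom_surjective h a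
  obtain ⟨b', hb⟩ := ZMod.castHom_surjective h b
  exact ⟨(a', b'), by simp [red, ← ha, ← hb]⟩

lemma red_int {Q M : ℕ} (h : M ∣ Q) (a b : ℤ) :
    red h ((a : ZMod Q), (b : ZMod Q)) = ((a : ZMod M), (b : ZMod M)) := by
  simp [red]

lemma pr_red {M : ℕ} [NeZero M] (h : M ∣ Q) (P : ZMod M × ZMod M → Prop) :
    pr Q (fun x => P (red h x)) = pr M P := by
  classical
  unfold pr
  rw [div_eq_div_iff (pow_pos (qpos Q) 2).ne' (pow_pos (qpos M) 2).ne']
  have := card_preimage_mul (red h) (red_surj h) P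
  rw [card_pair, card_pair] at this
  have h2 : ((univ.filter (fun x => P (red h x))).card : ℝ) * (M : ℝ) ^ 2
      = ((univ.filter P).card : ℝ) * (Q : ℝ) ^ 2 := by
    exact_mod_cast this
  exact h2

lemma red_prod_surj {M r : ℕ} (hM : M ∣ Q) (hr : r ∣ Q) (hco : Nat.Coprime M r) :
    Function.Surjective ((red hM).prod (red hr)) := by
  rintro ⟨⟨a, b⟩, ⟨c, d⟩⟩
  have hM0 : NeZero M := ⟨fun h => NeZero.ne Q (by rw [h] at hM; exact Nat.eq_zero_of_zero_dvd hM)⟩
  have hr0 : NeZero r := ⟨fun h => NeZero.ne Q (by rw [h] at hr; exact Nat.eq_zero_of_zero_dvd hr)⟩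
  have key : ∀ (u : ZMod M) (w : ZMod r), ∃ z : ℤ, (z : ZMod M) = u ∧ (z : ZMod r) = w := by
    intro u w
    obtain ⟨z, h1, h2⟩ := Nat.chineseRemainder hco u.val w.val
    refine ⟨z, ?_, ?_⟩
    · have := (ZMod.natCast_eq_natCast_iff _ _ _).mpr h1
      rw [Int.cast_natCast, this, ZMod.natCast_zmod_val]
    · have := (ZMod.natCast_eq_natCast_iff _ _ _).mpr h2
      rw [Int.cast_natCast, this, ZMod.natCast_zmod_val]
  obtain ⟨z1, e1, e2⟩ := key a c
  obtain ⟨z2, e3, e4⟩ := key b d
  refine ⟨((z1 : ZMod Q), (z2 : ZMod Q)), ?_⟩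
  rw [AddMonoidHom.prod_apply, red_int, red_int, e1, e2, e3, e4]

lemma pr_red_and {M r : ℕ} [NeZero M] [NeZero r] (hM : M ∣ Q) (hr : r ∣ Q)
    (hco : Nat.Coprime M r) (P : ZMod M × ZMod M → Prop) (c : ZMod r × ZMod r) :
    pr Q (fun x => P (red hM x) ∧ red hr x = c) = pr M P / (r : ℝ) ^ 2 := by
  classical
  rw [pr_eq, pr_eq]
  have := card_preimage_mul ((red hM).prod (red hr)) (red_prod_surj hM hr hco)
    (fun y => P y.1 ∧ y.2 = c)
  rw [Fintype.card_prod, card_pair, card_pair, card_pair] at this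
  have h3 : (univ.filter (fun y : (ZMod M × ZMod M) × (ZMod r × ZMod r) => P y.1 ∧ y.2 = c)).card
      = (univ.filter P).card := by
    have : (univ.filter (fun y : (ZMod M × ZMod M) × (ZMod r × ZMod r) => P y.1 ∧ y.2 = c))
        = (univ.filter P) ×ˢ {c} := by
      ext y
      rw [Finset.mem_product, Finset.mem_filter, Finset.mem_filter, Finset.mem_singleton]
      simp
    rw [this, Finset.card_product, Finset.card_singleton, mul_one]
  have h4 : (univ.filter (fun x => P (red hM x) ∧ red hr x = c)).card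
      * (M ^ 2 * r ^ 2) = (univ.filter P).card * Q ^ 2 := by
    rw [← h3]
    convert this <;> rfl
  have h2 : ((univ.filter (fun x => P (red hM x) ∧ red hr x = c)).card : ℝ)
      * ((M : ℝ) ^ 2 * (r : ℝ) ^ 2) = ((univ.filter P).card : ℝ) * (Q : ℝ) ^ 2 := by
    exact_mod_cast h4
  rw [div_div, div_eq_div_iff (pow_pos (qpos Q) 2).ne'
    (mul_pos (pow_pos (qpos M) 2) (pow_pos (qpos r) 2)).ne']
  exact h2

lemma pr_true : pr Q (fun _ => True) = 1 := by
  unfold pr
  rw [Finset.filter_true, Finset.card_univ, card_pair]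
  have := qpos Q
  push_cast
  field_simp

lemma pr_res {d : ℕ} (hd : d ∣ Q) (c : ZMod d × ZMod d) :
    pr Q (fun x => red hd x = c) = 1 / (d : ℝ) ^ 2 := by
  have hd0 : NeZero d := ⟨fun h => NeZero.ne Q (by rw [h] at hd; exact Nat.eq_zero_of_zero_dvd hd)⟩
  have h1 := pr_red (M := d) hd (fun y => y = c)
  rw [h1, pr_eq, Finset.filter_eq' univ c, if_pos (Finset.mem_univ c), Finset.card_singleton]
  simp

end

end Pool.Agent.K9h55.GV
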