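import Mathlib
import Pool.Agent.K9h55.GV.Model
import Pool.Agent.K9h55.GV.Prob

/-!
# The gcd recursion for prime triples: the basic estimates in the finite model
-/

set_option autoImplicit false

namespace Pool.Agent.K9h55.GV

open Finset

section

variable {Q : ℕ} [NeZero Q]

lemma red_val {M : ℕ} (h : M ∣ Q) (x : ZMod Q × ZMod Q) :
    red h x = (((x.1.val : ℤ) : ZMod M), ((x.2.val : ℤ) : ZMod M)) := by
  conv_lhs => rw [show x = (((x.1.val : ℤ) : ZMod Q), ((x.2.val : ℤ) : ZMod Q)) by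
    rw [val_cast, val_cast]]
  rw [red_int]

lemma sum_sq_le (L M : ℕ) (hL : 0 < L) : ∑ d ∈ Ioc L M, (1 : ℝ) / (d : ℝ) ^ 2 ≤ 1 / L := by
  rcases le_total L M with h | h
  · have := sum_Ioc_inv_sq_le_sub (α := ℝ) hL.ne' h
    have h2 : (0 : ℝ) ≤ (M : ℝ)⁻¹ := by positivity
    calc ∑ d ∈ Ioc L M, (1 : ℝ) / (d : ℝ) ^ 2 = ∑ d ∈ Ioc L M, ((d : ℝ) ^ 2)⁻¹ := by
          apply Finset.sum_congr rfl; intro d _; rw [one_div]
      _ ≤ (L : ℝ)⁻¹ - (M : ℝ)⁻¹ := this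
      _ ≤ 1 / L := by rw [one_div]; linarith
  · rw [Finset.Ioc_eq_empty (by omega), Finset.sum_empty]
    positivity

/-- a large gcd is rare -/
lemma pr_gx_gt (L : ℕ) (hL : 0 < L) : pr Q (fun x => L < gx Q x) ≤ 3 / L := by
  classical
  set S : Finset (ℕ × ℤ) := (Ioc L Q) ×ˢ ({0, 2, 6} : Finset ℤ) with hS
  set F : ℕ × ℤ → ZMod Q × ZMod Q → Prop := fun p x =>
    ∃ h : p.1 ∣ Q, red h x = (((-1 - p.2 : ℤ) : ZMod p.1), ((-p.2 : ℤ) : ZMod p.1)) with hF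
  have h1 : pr Q (fun x => L < gx Q x) ≤ ∑ p ∈ S, pr Q (F p) := by
    apply pr_bUnion
    intro x hx
    have hd : gx Q x ∣ Q := gam_dvd _ _ _
    have hd2 := dvd_gam.mp (dvd_refl (gam Q ((x.1.val : ℤ) + 1) (x.2.val : ℤ)))
    refine ⟨(gx Q x, bz ((x.1.val : ℤ) + 1)), ?_, hd, ?_⟩
    · rw [hS, Finset.mem_product]
      refine ⟨Finset.mem_Ioc.mpr ⟨hx, Nat.le_of_dvd (NeZero.pos Q) hd⟩, ?_⟩
      have := bz_cases ((x.1.val : ℤ) + 1)
      simp only [Finset.mem_insert, Finset.mem_singleton]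
      tauto
    · rw [red_val]
      apply Prod.ext
      · show (((x.1.val : ℤ) : ZMod (gx Q x))) = ((-1 - bz ((x.1.val : ℤ) + 1) : ℤ) : ZMod (gx Q x))
        rw [ZMod.intCast_eq_intCast_iff_dvd_sub]
        have h : ((gx Q x : ℕ) : ℤ) ∣ -(((x.1.val : ℤ) + 1) + bz ((x.1.val : ℤ) + 1)) :=
          (dvd_neg (α := ℤ)).mpr hd2.2.1
        rwa [show -(((x.1.val : ℤ) + 1) + bz ((x.1.val : ℤ) + 1))
          = (-1 - bz ((x.1.val : ℤ) + 1)) - (x.1.val : ℤ) by ring] at h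
      · show (((x.2.val : ℤ) : ZMod (gx Q x))) = ((-bz ((x.1.val : ℤ) + 1) : ℤ) : ZMod (gx Q x))
        rw [ZMod.intCast_eq_intCast_iff_dvd_sub]
        have h : ((gx Q x : ℕ) : ℤ) ∣ -((x.2.val : ℤ) + bz ((x.1.val : ℤ) + 1)) :=
          (dvd_neg (α := ℤ)).mpr hd2.1
        rwa [show -((x.2.val : ℤ) + bz ((x.1.val : ℤ) + 1))
          = (-bz ((x.1.val : ℤ) + 1)) - (x.2.val : ℤ) by ring] at h
  have h2 : ∀ p ∈ S, pr Q (F p) ≤ 1 / (p.1 : ℝ) ^ 2 := by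
    intro p _
    by_cases h : p.1 ∣ Q
    · rw [← pr_res (Q := Q) h (((-1 - p.2 : ℤ) : ZMod p.1), ((-p.2 : ℤ) : ZMod p.1))]
      apply pr_mono
      rintro x ⟨_, hx⟩
      exact hx
    · have : pr Q (F p) ≤ pr Q (fun _ => False) := pr_mono (fun x ⟨h', _⟩ => h h')
      refine this.trans ?_
      rw [pr_eq]
      simp
  refine h1.trans ((Finset.sum_le_sum h2).trans ?_)
  rw [hS, Finset.sum_product]
  have h3 : ∀ d ∈ Ioc L Q, ∑ c ∈ ({0, 2, 6} : Finset ℤ), (1 : ℝ) / (d : ℝ) ^ 2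
      = 3 * (1 / (d : ℝ) ^ 2) := by
    intro d _
    rw [Finset.sum_const]
    have : ({0, 2, 6} : Finset ℤ).card = 3 := by decide
    rw [this]
    simp
  rw [Finset.sum_congr rfl h3, ← Finset.mul_sum]
  have := sum_sq_le L Q hL
  calc 3 * ∑ d ∈ Ioc L Q, (1 : ℝ) / (d : ℝ) ^ 2 ≤ 3 * (1 / L) := by linarith
    _ = 3 / L := by ring

lemma pr_dvd_fst {r : ℕ} (hr : r ∣ Q) (c : ℤ) :
    pr Q (fun x => (r : ℤ) ∣ (x.1.val : ℤ) + c) ≤ 1 / r := by
  classical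
  have hr0 : NeZero r := ⟨fun h => NeZero.ne Q (by rw [h] at hr; exact Nat.eq_zero_of_zero_dvd hr)⟩
  have h1 : pr Q (fun x => (r : ℤ) ∣ (x.1.val : ℤ) + c)
      ≤ ∑ t : ZMod r, pr Q (fun x => red hr x = (((-c : ℤ) : ZMod r), t)) := by
    apply pr_bUnion
    intro x hx
    refine ⟨((x.2.val : ℤ) : ZMod r), Finset.mem_univ _, ?_⟩
    rw [red_val]
    congr 1
    rw [ZMod.intCast_eq_intCast_iff_dvd_sub]
    have h := (dvd_neg (α := ℤ)).mpr hx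
    rwa [show -((x.1.val : ℤ) + c) = -c - (x.1.val : ℤ) by ring] at h
  refine h1.trans ?_
  rw [Finset.sum_congr rfl (fun t _ => pr_res hr _), Finset.sum_const, Finset.card_univ, ZMod.card]
  have : (0 : ℝ) < r := qpos r
  rw [nsmul_eq_mul]
  apply le_of_eq
  field_simp

/-- few points are at most `k` steps after a multiple of `r` -/
lemma pr_near {r : ℕ} (hr : r ∣ Q) (k : ℕ) :
    pr Q (fun x => ∃ i : ℕ, i < k ∧ (r : ℤ) ∣ ((x.1.val : ℤ) - i) + bz ((x.1.val : ℤ) - i))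
      ≤ 3 * k / r := by
  classical
  set S : Finset (ℕ × ℤ) := (range k) ×ˢ ({0, 2, 6} : Finset ℤ) with hS
  have h1 : pr Q (fun x => ∃ i : ℕ, i < k ∧
      (r : ℤ) ∣ ((x.1.val : ℤ) - i) + bz ((x.1.val : ℤ) - i))
      ≤ ∑ p ∈ S, pr Q (fun x => (r : ℤ) ∣ (x.1.val : ℤ) + (p.2 - p.1)) := by
    apply pr_bUnion
    rintro x ⟨i, hi, hx⟩
    refine ⟨(i, bz ((x.1.val : ℤ) - i)), ?_, ?_⟩
    · rw [hS, Finset.mem_product]
      refine ⟨Finset.mem_range.mpr hi, ?_⟩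
      have := bz_cases ((x.1.val : ℤ) - i)
      simp only [Finset.mem_insert, Finset.mem_singleton]
      tauto
    · show (r : ℤ) ∣ (x.1.val : ℤ) + (bz ((x.1.val : ℤ) - i) - i)
      rwa [show (x.1.val : ℤ) + (bz ((x.1.val : ℤ) - i) - i)
        = (x.1.val : ℤ) - i + bz ((x.1.val : ℤ) - i) by ring]
  refine h1.trans ((Finset.sum_le_sum (fun p _ => pr_dvd_fst hr _)).trans ?_)
  rw [Finset.sum_const, hS, Finset.card_product, Finset.card_range]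
  have : ({0, 2, 6} : Finset ℤ).card = 3 := by decide
  rw [this, nsmul_eq_mul]
  apply le_of_eq
  push_cast
  ring

/-- shifting by a multiple of `L!` does not change the gcd, if it is small -/
lemma gx_shift (h3 : 3 ∣ Q) {L s : ℕ} (hs : L.factorial ∣ s) {y : ZMod Q × ZMod Q}
    (h1 : gx Q y ≤ L) (h2 : gx Q (y - (0, (s : ZMod Q))) ≤ L) :
    gx Q (y - (0, (s : ZMod Q))) = gx Q y := by
  have e : gx Q (y - (0, (s : ZMod Q))) = gam Q ((y.1.val : ℤ) + 1) ((y.2.val : ℤ) - s) := by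
    apply gx_eq h3
    · simp
    · simp
  rw [e] at h2 ⊢
  have hy : gx Q y = gam Q ((y.1.val : ℤ) + 1) (y.2.val : ℤ) := rfl
  rw [hy] at h1 ⊢
  have k1 : gam Q ((y.1.val : ℤ) + 1) (y.2.val : ℤ) ∣ s :=
    (Nat.dvd_factorial (gam_pos (NeZero.pos Q) _ _) h1).trans hs
  have k2 : gam Q ((y.1.val : ℤ) + 1) ((y.2.val : ℤ) - s) ∣ s :=
    (Nat.dvd_factorial (gam_pos (NeZero.pos Q) _ _) h2).trans hs
  apply Nat.dvd_antisymm
  · obtain ⟨a1, a2, a3⟩ := dvd_gam.mp (dvd_refl (gam Q ((y.1.val : ℤ) + 1) ((y.2.val : ℤ) - s)))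
    refine dvd_gam.mpr ⟨?_, a2, a3⟩
    have := dvd_add a1 (Int.natCast_dvd_natCast.mpr k2)
    rwa [show (y.2.val : ℤ) - s + bz ((y.1.val : ℤ) + 1) + s
      = (y.2.val : ℤ) + bz ((y.1.val : ℤ) + 1) by ring] at this
  · obtain ⟨a1, a2, a3⟩ := dvd_gam.mp (dvd_refl (gam Q ((y.1.val : ℤ) + 1) (y.2.val : ℤ)))
    refine dvd_gam.mpr ⟨?_, a2, a3⟩
    have := dvd_sub a1 (Int.natCast_dvd_natCast.mpr k1)
    rwa [show (y.2.val : ℤ) + bz ((y.1.val : ℤ) + 1) - s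
      = (y.2.val : ℤ) - s + bz ((y.1.val : ℤ) + 1) by ring] at this

/-- the image of `k` steps is nearly invariant under shifts by multiples of `L!` -/
lemma shift_fail (h3 : 3 ∣ Q) {L s : ℕ} (hL : 0 < L) (hs : L.factorial ∣ s) (k : ℕ) :
    pr Q (fun x => Om Q k x ∧ ¬ Om Q k (x - (0, (s : ZMod Q)))) ≤ k * (6 / L) := by
  induction k with
  | zero =>
    have : pr Q (fun x => Om Q 0 x ∧ ¬ Om Q 0 (x - (0, (s : ZMod Q)))) ≤ pr Q (fun _ => False) := by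
      apply pr_mono
      rintro x ⟨_, h⟩
      exact h trivial
    refine this.trans ?_
    rw [pr_eq]
    simp
  | succ k ih =>
    have h1 : pr Q (fun x => Om Q (k + 1) x ∧ ¬ Om Q (k + 1) (x - (0, (s : ZMod Q))))
        ≤ pr Q (fun y => (Om Q k y ∧ ¬ Om Q k (y - (0, (s : ZMod Q)))) ∨
            (L < gx Q y ∨ L < gx Q (y - (0, (s : ZMod Q))))) := by
      apply pr_surj (St Q)
      rintro x ⟨hx, hx'⟩
      obtain ⟨y, hy, e⟩ := Om_succ h3 hx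
      refine ⟨y, ?_, e⟩
      by_contra hcon
      push Not at hcon
      obtain ⟨c1, c2, c3⟩ := hcon
      have c4 := c1 hy
      apply hx'
      have hg := gx_shift h3 hs c2 c3
      have : x - (0, (s : ZMod Q)) = St Q (y - (0, (s : ZMod Q))) := by
        rw [← e]
        unfold St
        rw [hg]
        apply Prod.ext
        · simp
        · simp only [Prod.snd_sub]
          ring
      rw [this]
      exact Om_step h3 c4
    have h2 := pr_or (Q := Q) (P := fun y => (Om Q k y ∧ ¬ Om Q k (y - (0, (s : ZMod Q)))) ∨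
            (L < gx Q y ∨ L < gx Q (y - (0, (s : ZMod Q)))))
            (P1 := fun y => (Om Q k y ∧ ¬ Om Q k (y - (0, (s : ZMod Q)))))
            (P2 := fun y => (L < gx Q y ∨ L < gx Q (y - (0, (s : ZMod Q))))) (fun x hx => hx)
    have h4 := pr_or (Q := Q) (P := fun y => (L < gx Q y ∨ L < gx Q (y - (0, (s : ZMod Q)))))
            (P1 := fun y => L < gx Q y)
            (P2 := fun y => L < gx Q (y - (0, (s : ZMod Q)))) (fun x hx => hx)
    have h5 := pr_gx_gt (Q := Q) L hL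
    have h6 := pr_shift (Q := Q) (fun y => L < gx Q y) (0, (s : ZMod Q))
    push_cast
    have h7 : (6 : ℝ) / L = 3 / L + 3 / L := by ring
    rw [add_mul, one_mul]
    linarith

lemma shift_fail' (h3 : 3 ∣ Q) {L s : ℕ} (hL : 0 < L) (hs : L.factorial ∣ s) {k0 k : ℕ}
    (hk : k0 ≤ k) :
    pr Q (fun x => Om Q k x ∧ ¬ Om Q k (x - (0, (s : ZMod Q)))) ≤
      k0 * (6 / L) + (pr Q (Om Q k0) - pr Q (Om Q k)) := by
  have h1 := pr_or (Q := Q) (P := fun x => Om Q k x ∧ ¬ Om Q k (x - (0, (s : ZMod Q))))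
    (P1 := fun x => Om Q k0 x ∧ ¬ Om Q k0 (x - (0, (s : ZMod Q))))
    (P2 := fun x => Om Q k0 (x - (0, (s : ZMod Q))) ∧ ¬ Om Q k (x - (0, (s : ZMod Q)))) (by
      rintro x ⟨a, b⟩
      by_cases h : Om Q k0 (x - (0, (s : ZMod Q)))
      · right; exact ⟨h, b⟩
      · left; exact ⟨Om_anti' hk a, h⟩)
  have h2 := shift_fail h3 hL hs k0
  have h4 := pr_shift (Q := Q) (fun x => Om Q k0 x ∧ ¬ Om Q k x) (0, (s : ZMod Q))
  have h5 := pr_diff (Q := Q) (P := Om Q k0) (P' := Om Q k) (fun x hx => Om_anti' hk hx)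
  linarith

/-- collisions make the image smaller -/
lemma loss (h3 : 3 ∣ Q) (L k : ℕ) :
    pr Q (Om Q (k + 1)) ≤ pr Q (Om Q k) - pr Q (fun x => Om Q k x ∧ L < gx Q x ∧
      ∃ y, Om Q k y ∧ gx Q y ≤ L ∧ St Q y = St Q x) := by
  set P : ZMod Q × ZMod Q → Prop := fun x => Om Q k x ∧ L < gx Q x ∧
      ∃ y, Om Q k y ∧ gx Q y ≤ L ∧ St Q y = St Q x with hP
  have h1 : pr Q (Om Q (k + 1)) ≤ pr Q (fun x => Om Q k x ∧ ¬ P x) := by
    apply pr_surj (St Q)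
    intro z hz
    obtain ⟨y, hy, e⟩ := Om_succ h3 hz
    by_cases hp : P y
    · obtain ⟨_, _, y', a, b, c⟩ := hp
      refine ⟨y', ⟨a, ?_⟩, by rw [c, e]⟩
      rintro ⟨_, b', _⟩
      omega
    · exact ⟨y, ⟨hy, hp⟩, e⟩
  have h2 := pr_diff (Q := Q) (P := Om Q k) (P' := P) (fun x hx => hx.1)
  linarith

lemma val_add_one_mod (h3 : 3 ∣ Q) (x : ZMod Q) : (x + 1).val % 3 = (x.val + 1) % 3 := by
  have h1 : (((x + 1).val : ℤ) : ZMod Q) = (((x.val : ℤ) + 1 : ℤ) : ZMod Q) := by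
    rw [val_cast]; push_cast; rw [ZMod.natCast_zmod_val]
  have h2 := emod3_congr h3 h1
  omega

lemma pr_class (h3 : 3 ∣ Q) (k i : ℕ) (hi : i < 3) :
    pr Q (fun x => Om Q (k + 1) x ∧ x.1.val % 3 = (i + 1) % 3) ≤
      pr Q (fun x => Om Q k x ∧ x.1.val % 3 = i) := by
  apply pr_surj (St Q)
  rintro x ⟨hx, hi'⟩
  obtain ⟨y, hy, e⟩ := Om_succ h3 hx
  refine ⟨y, ⟨hy, ?_⟩, e⟩
  have h1 : x.1 = y.1 + 1 := by rw [← e]; rfl
  rw [h1, val_add_one_mod h3] at hi'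
  omega

/-- each class of `n` modulo `3` has its share of the image -/
lemma pr_third (h3 : 3 ∣ Q) (k : ℕ) :
    pr Q (Om Q (k + 2)) ≤ 3 * pr Q (fun x => Om Q k x ∧ x.1.val % 3 = 1) := by
  have h1 := pr_or (Q := Q) (P := Om Q (k + 2))
    (P1 := fun x => Om Q (k + 2) x ∧ x.1.val % 3 = 1)
    (P2 := fun x => (Om Q (k + 2) x ∧ x.1.val % 3 = 2) ∨ (Om Q (k + 2) x ∧ x.1.val % 3 = 0)) (by
      intro x hx
      have : x.1.val % 3 = 1 ∨ x.1.val % 3 = 2 ∨ x.1.val % 3 = 0 := by omega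
      tauto)
  have h2 := pr_or (Q := Q)
    (P := fun x => (Om Q (k + 2) x ∧ x.1.val % 3 = 2) ∨ (Om Q (k + 2) x ∧ x.1.val % 3 = 0))
    (P1 := fun x => Om Q (k + 2) x ∧ x.1.val % 3 = 2)
    (P2 := fun x => Om Q (k + 2) x ∧ x.1.val % 3 = 0) (fun x hx => hx)
  have a1 : pr Q (fun x => Om Q (k + 2) x ∧ x.1.val % 3 = 1)
      ≤ pr Q (fun x => Om Q k x ∧ x.1.val % 3 = 1) :=
    pr_mono (fun x hx => ⟨Om_anti (Om_anti hx.1), hx.2⟩)
  have a2 : pr Q (fun x => Om Q (k + 2) x ∧ x.1.val % 3 = 2)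
      ≤ pr Q (fun x => Om Q (k + 1) x ∧ x.1.val % 3 = 2) :=
    pr_mono (fun x hx => ⟨Om_anti hx.1, hx.2⟩)
  have a3 := pr_class (Q := Q) h3 k 1 (by norm_num)
  have a4 := pr_class (Q := Q) h3 (k + 1) 2 (by norm_num)
  simp only [Nat.reduceAdd, Nat.reduceMod] at a3 a4
  have e2 : (1 + 1) % 3 = 2 := rfl
  linarith

end

end Pool.Agent.K9h55.GV
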