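import Mathlib
import Pool.Agent.K9h55.GV.Lem

/-!
# The gcd recursion for prime triples: collisions at multiples of a large prime
-/

set_option autoImplicit false

namespace Pool.Agent.K9h55.GV

open Finset

section

variable {Q Q1 : ℕ} [NeZero Q] [NeZero Q1]

lemma Om_red {r e : ℕ} (hr : r.Prime) (hQ : Q = Q1 * r ^ e) (h3 : 3 ∣ Q1) (hM : Q1 ∣ Q) {k : ℕ}
    {x : ZMod Q × ZMod Q}
    (hx : ∀ i : ℕ, i < k → ¬ (r : ℤ) ∣ ((x.1.val : ℤ) - i) + bz ((x.1.val : ℤ) - i)) :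
    Om Q k x ↔ Om Q1 k (red hM x) := by
  have h1 : ∀ n T : ℤ, (∀ i : ℕ, i < k → ¬ (r : ℤ) ∣ (n - i) + bz (n - i)) →
      (R Q k n T ↔ R Q1 k n T) := by
    intro n T h
    rw [hQ]
    exact R_remove hr h
  rw [Om_iff (h3 := h3) (x := red hM x) (n := (x.1.val : ℤ)) (T := (x.2.val : ℤ))]
  · exact h1 _ _ hx
  · rw [red_val]
  · rw [red_val]

lemma pr_Om_le {r e : ℕ} (hr : r.Prime) (he : 1 ≤ e) (hQ : Q = Q1 * r ^ e) (h3 : 3 ∣ Q1) (k : ℕ) :
    pr Q (Om Q k) ≤ pr Q1 (Om Q1 k) + 3 * k / r := by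
  have hM : Q1 ∣ Q := ⟨r ^ e, hQ⟩
  have hrQ : r ∣ Q := by rw [hQ]; exact Dvd.dvd.mul_left (dvd_pow_self r (by omega)) _
  have h1 := pr_or (Q := Q) (P := Om Q k) (P1 := fun x => Om Q1 k (red hM x))
    (P2 := fun x => ∃ i : ℕ, i < k ∧ (r : ℤ) ∣ ((x.1.val : ℤ) - i) + bz ((x.1.val : ℤ) - i)) (by
      intro x hx
      by_cases h : ∃ i : ℕ, i < k ∧ (r : ℤ) ∣ ((x.1.val : ℤ) - i) + bz ((x.1.val : ℤ) - i)
      · right; exact h
      · left
        push Not at h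
        exact (Om_red hr hQ h3 hM h).mp hx)
  rw [pr_red] at h1
  exact h1.trans (by have := pr_near hrQ k; linarith)

lemma pr_Om_ge {r e : ℕ} (hr : r.Prime) (he : 1 ≤ e) (hQ : Q = Q1 * r ^ e) (h3 : 3 ∣ Q1) (k : ℕ) :
    pr Q1 (Om Q1 k) ≤ pr Q (Om Q k) + 3 * k / r := by
  have hM : Q1 ∣ Q := ⟨r ^ e, hQ⟩
  have hrQ : r ∣ Q := by rw [hQ]; exact Dvd.dvd.mul_left (dvd_pow_self r (by omega)) _
  have h1 := pr_or (Q := Q) (P := fun x => Om Q1 k (red hM x)) (P1 := Om Q k)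
    (P2 := fun x => ∃ i : ℕ, i < k ∧ (r : ℤ) ∣ ((x.1.val : ℤ) - i) + bz ((x.1.val : ℤ) - i)) (by
      intro x hx
      by_cases h : ∃ i : ℕ, i < k ∧ (r : ℤ) ∣ ((x.1.val : ℤ) - i) + bz ((x.1.val : ℤ) - i)
      · right; exact h
      · left
        push Not at h
        exact (Om_red hr hQ h3 hM h).mpr hx)
  rw [pr_red] at h1
  exact h1.trans (by have := pr_near hrQ k; linarith)

/-- the good points modulo `Q1` -/
def Good (Q1 : ℕ) [NeZero Q1] (r k G L : ℕ) (y : ZMod Q1 × ZMod Q1) : Prop :=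
  Om Q1 k y ∧ y.1.val % 3 = 1 ∧ gx Q1 y ≤ G ∧
    Om Q1 k (y - (0, (((r - 1) * gx Q1 y : ℕ) : ZMod Q1))) ∧
    gx Q1 (y - (0, (((r - 1) * gx Q1 y : ℕ) : ZMod Q1))) ≤ L

lemma pr_Good (h3 : 3 ∣ Q1) {r k k0 G L : ℕ} (hL : 0 < L) (hG : 0 < G) (hr : L.factorial ∣ r - 1)
    (hk : k0 ≤ k) :
    pr Q1 (fun x => Om Q1 k x ∧ x.1.val % 3 = 1) ≤ pr Q1 (Good Q1 r k G L) + (3 / G +
      G * (k0 * (6 / L) + (pr Q1 (Om Q1 k0) - pr Q1 (Om Q1 k)) + 3 / L)) := by
  classical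
  have h1 := pr_or (Q := Q1) (P := fun x => Om Q1 k x ∧ x.1.val % 3 = 1)
    (P1 := Good Q1 r k G L) (P2 := fun x => G < gx Q1 x ∨ ∃ g ∈ Icc 1 G,
      (Om Q1 k x ∧ ¬ Om Q1 k (x - (0, (((r - 1) * g : ℕ) : ZMod Q1)))) ∨
      L < gx Q1 (x - (0, (((r - 1) * g : ℕ) : ZMod Q1)))) (by
      rintro x ⟨hx, hx3⟩
      by_cases h : Good Q1 r k G L x
      · left; exact h
      · right
        by_cases hg : G < gx Q1 x
        · left; exact hg
        · right
          push Not at hg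
          refine ⟨gx Q1 x, Finset.mem_Icc.mpr ⟨gx_pos x, hg⟩, ?_⟩
          by_contra hcon
          push Not at hcon
          exact h ⟨hx, hx3, hg, hcon.1 hx, hcon.2⟩)
  have h2 := pr_or (Q := Q1) (P := fun x => G < gx Q1 x ∨ ∃ g ∈ Icc 1 G,
      (Om Q1 k x ∧ ¬ Om Q1 k (x - (0, (((r - 1) * g : ℕ) : ZMod Q1)))) ∨
      L < gx Q1 (x - (0, (((r - 1) * g : ℕ) : ZMod Q1))))
      (P1 := fun x => G < gx Q1 x) (P2 := fun x => ∃ g ∈ Icc 1 G,
      (Om Q1 k x ∧ ¬ Om Q1 k (x - (0, (((r - 1) * g : ℕ) : ZMod Q1)))) ∨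
      L < gx Q1 (x - (0, (((r - 1) * g : ℕ) : ZMod Q1)))) (fun x hx => hx)
  have h4 := pr_gx_gt (Q := Q1) G hG
  have h5 : pr Q1 (fun x => ∃ g ∈ Icc 1 G,
      (Om Q1 k x ∧ ¬ Om Q1 k (x - (0, (((r - 1) * g : ℕ) : ZMod Q1)))) ∨
      L < gx Q1 (x - (0, (((r - 1) * g : ℕ) : ZMod Q1)))) ≤
      ∑ g ∈ Icc 1 G, pr Q1 (fun x =>
      (Om Q1 k x ∧ ¬ Om Q1 k (x - (0, (((r - 1) * g : ℕ) : ZMod Q1)))) ∨
      L < gx Q1 (x - (0, (((r - 1) * g : ℕ) : ZMod Q1)))) :=
    pr_bUnion _ (fun x hx => hx)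
  have h6 : ∀ g ∈ Icc 1 G, pr Q1 (fun x =>
      (Om Q1 k x ∧ ¬ Om Q1 k (x - (0, (((r - 1) * g : ℕ) : ZMod Q1)))) ∨
      L < gx Q1 (x - (0, (((r - 1) * g : ℕ) : ZMod Q1)))) ≤
      k0 * (6 / L) + (pr Q1 (Om Q1 k0) - pr Q1 (Om Q1 k)) + 3 / L := by
    intro g _
    refine (pr_or (P1 := fun x => (Om Q1 k x ∧ ¬ Om Q1 k (x - (0, (((r - 1) * g : ℕ) : ZMod Q1)))))
      (P2 := fun x => L < gx Q1 (x - (0, (((r - 1) * g : ℕ) : ZMod Q1)))) (fun x hx => hx)).trans ?_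
    apply add_le_add
    · exact shift_fail' h3 hL (Dvd.dvd.mul_right hr g) hk
    · rw [pr_shift (fun x => L < gx Q1 x)]
      exact pr_gx_gt L hL
  have h7 := h5.trans (Finset.sum_le_sum h6)
  rw [Finset.sum_const, Nat.card_Icc, nsmul_eq_mul, Nat.add_sub_cancel] at h7
  linarith

/-- the points that collide with another point because of the prime `r` -/
def Hit (Q : ℕ) [NeZero Q] (r k L : ℕ) (x : ZMod Q × ZMod Q) : Prop :=
  ∃ g : ℕ, 0 < g ∧ g ≤ L ∧ gx Q x = r * g ∧ Om Q k x ∧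
    ∃ y, Om Q k y ∧ gx Q y ≤ L ∧ St Q y = St Q x

lemma hit_of_good {r e k G L : ℕ} (hr : r.Prime) (he : 1 ≤ e) (hQ : Q = Q1 * r ^ e)
    (hco : ¬ r ∣ Q1) (h3 : 3 ∣ Q1) (hM : Q1 ∣ Q) (hrQ : r ∣ Q) (hGL : G ≤ L) (hLr : L < r)
    (hkr : k + 7 < r) (hLf : L.factorial ∣ r - 1) {x : ZMod Q × ZMod Q}
    (hx : Good Q1 r k G L (red hM x)) (hxr : red hrQ x = (((-7 : ℤ) : ZMod r), ((-6 : ℤ) : ZMod r)))
    (hx2 : ¬ ∃ h : r ^ 2 ∣ Q, red h x = (((-7 : ℤ) : ZMod (r ^ 2)), ((-6 : ℤ) : ZMod (r ^ 2)))) :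
    Hit Q r k L x := by
  have h3Q : 3 ∣ Q := h3.trans hM
  obtain ⟨g1, g2, g3, g4, g5⟩ := hx
  set n : ℤ := (x.1.val : ℤ) with hn
  set T : ℤ := (x.2.val : ℤ) with hT
  have hnc : (n : ZMod Q) = x.1 := val_cast _
  have hTc : (T : ZMod Q) = x.2 := val_cast _
  have hred : red hM x = ((n : ZMod Q1), (T : ZMod Q1)) := red_val hM x
  have hredr : red hrQ x = ((n : ZMod r), (T : ZMod r)) := red_val hrQ x
  set g0 : ℕ := gx Q1 (red hM x) with hg0
  have hg0' : g0 = gam Q1 (n + 1) T := by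
    rw [hg0]; apply gx_eq h3
    · rw [hred]
    · rw [hred]
  have hg0pos : 0 < g0 := gx_pos _
  -- the class of `n` modulo 3
  have hn3 : n % 3 = 1 := by
    have e1 : ((((red hM x).1.val : ℤ)) : ZMod Q1) = (n : ZMod Q1) := by
      rw [val_cast, hred]
    have := emod3_congr h3 e1
    omega
  have hb : bz (n + 1) = 6 := by
    unfold bz
    have : (n + 1) % 3 = 2 := by omega
    rw [this]; norm_num
  -- the divisibilities
  have d1 : (r : ℤ) ∣ n + 7 := by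
    have e1 : (n : ZMod r) = ((-7 : ℤ) : ZMod r) := by
      have := congrArg Prod.fst (hredr.symm.trans hxr)
      exact this
    rw [eq_comm, ZMod.intCast_eq_intCast_iff_dvd_sub] at e1
    rwa [show n - (-7) = n + 7 by ring] at e1
  have d2 : (r : ℤ) ∣ T + 6 := by
    have e1 : (T : ZMod r) = ((-6 : ℤ) : ZMod r) := by
      have := congrArg Prod.snd (hredr.symm.trans hxr)
      exact this
    rw [eq_comm, ZMod.intCast_eq_intCast_iff_dvd_sub] at e1
    rwa [show T - (-6) = T + 6 by ring] at e1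
  have hnear : ∀ i : ℕ, i < k → ¬ (r : ℤ) ∣ (n - i) + bz (n - i) := by
    intro i hi hd
    have h1 := dvd_sub d1 hd
    rw [show n + 7 - (n - i + bz (n - i)) = 7 + i - bz (n - i) by ring] at h1
    have h2 : (0 : ℤ) < 7 + i - bz (n - i) := by
      rcases bz_cases (n - i) with h | h | h <;> rw [h] <;> omega
    have h4 := Int.le_of_dvd h2 h1
    rcases bz_cases (n - i) with h | h | h <;> rw [h] at h4 <;> omega
  have hr2 := hr.two_le
  -- the gcd at `x`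
  have hgx : gx Q x = r * g0 := by
    have e1 : gx Q x = gam Q (n + 1) T := gx_eq h3Q hnc hTc
    rw [e1, hg0']
    set A := Int.gcd (T + bz (n + 1)) (n + 1 + bz (n + 1)) with hA
    have hrA : r ∣ A := by
      rw [hA, ← Int.natCast_dvd_natCast, Int.dvd_coe_gcd_iff, hb]
      exact ⟨d2, by rwa [show n + 1 + 6 = n + 7 by ring]⟩
    have hcop : Nat.Coprime Q1 (r ^ e) := by
      apply Nat.Coprime.pow_right
      apply Nat.Coprime.symm
      exact (Nat.Prime.coprime_iff_not_dvd hr).mpr hco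
    have e2 : gam Q (n + 1) T = Nat.gcd A Q1 * Nat.gcd A (r ^ e) := by
      unfold gam
      rw [← hA, hQ]
      exact Nat.Coprime.gcd_mul A hcop
    have e3 : gam Q1 (n + 1) T = Nat.gcd A Q1 := rfl
    have e4 : Nat.gcd A (r ^ e) = r := by
      obtain ⟨j, hj, hj2⟩ := (Nat.dvd_prime_pow hr).mp (Nat.gcd_dvd_right A (r ^ e))
      have hj1 : 1 ≤ j := by
        by_contra hcon
        have : j = 0 := by omega
        rw [this, pow_zero] at hj2
        have h5 : r ∣ Nat.gcd A (r ^ e) := Nat.dvd_gcd hrA (dvd_pow_self r (by omega))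
        rw [hj2] at h5
        have := Nat.le_of_dvd one_pos h5
        omega
      have hj3 : j < 2 := by
        by_contra hcon
        push Not at hcon
        apply hx2
        have h5 : r ^ 2 ∣ Nat.gcd A (r ^ e) := by rw [hj2]; exact pow_dvd_pow r hcon
        have h6 : r ^ 2 ∣ A := h5.trans (Nat.gcd_dvd_left _ _)
        have h7 : r ^ 2 ∣ Q := by
          rw [hQ]; exact Dvd.dvd.mul_left (h5.trans (Nat.gcd_dvd_right _ _)) _
        rw [hA, ← Int.natCast_dvd_natCast, Int.dvd_coe_gcd_iff, hb] at h6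
        refine ⟨h7, ?_⟩
        rw [red_val]
        apply Prod.ext
        · show ((n : ZMod (r ^ 2))) = _
          rw [eq_comm, ZMod.intCast_eq_intCast_iff_dvd_sub]
          rw [show n - (-7) = n + 1 + 6 by ring]
          exact h6.2
        · show ((T : ZMod (r ^ 2))) = _
          rw [eq_comm, ZMod.intCast_eq_intCast_iff_dvd_sub]
          rw [show T - (-6) = T + 6 by ring]
          exact h6.1
      have : j = 1 := by omega
      rw [hj2, this, pow_one]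
    rw [e2, e3, e4]
    ring
  -- the other point
  set s : ℕ := (r - 1) * g0 with hs
  set y : ZMod Q × ZMod Q := x - (0, (s : ZMod Q)) with hy
  have hy1 : y.1 = x.1 := by rw [hy]; simp
  have hy2 : y.2 = x.2 - (s : ZMod Q) := by rw [hy]; simp
  have hredy : red hM y = red hM x - (0, (s : ZMod Q1)) := by
    rw [hy, map_sub]
    congr 1
    have := red_int hM 0 (s : ℤ)
    simpa using this
  have hsub : (r : ℤ) - 1 = ((r - 1 : ℕ) : ℤ) := by
    rw [Nat.cast_sub (by omega)]; simp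
  refine ⟨g0, hg0pos, g3.trans hGL, hgx, ?_, y, ?_, ?_, ?_⟩
  · exact (Om_red hr hQ h3 hM hnear).mpr g1
  · rw [Om_red hr hQ h3 hM (by rw [hy1]; exact hnear), hredy]
    exact g4
  · -- the gcd at `y`
    have e1 : gx Q y = gam Q (n + 1) (T - s) := by
      apply gx_eq h3Q
      · rw [hy1, hnc]
      · rw [hy2, ← hTc]; push_cast; ring
    have e2 : gam Q (n + 1) (T - s) = gam Q1 (n + 1) (T - s) := by
      unfold gam
      rw [hQ]
      apply Nat.Coprime.gcd_mul_right_cancel_right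
      apply Nat.Coprime.pow_left
      rw [Nat.Prime.coprime_iff_not_dvd hr]
      intro hd
      rw [← Int.natCast_dvd_natCast, Int.dvd_coe_gcd_iff, hb] at hd
      have h5 := dvd_sub d2 hd.1
      have h6 : T + 6 - (T - (s : ℤ) + 6) = (r : ℤ) * g0 - g0 := by
        rw [hs]; push_cast; rw [← hsub]; ring
      rw [h6] at h5
      have h7 := dvd_sub (Dvd.intro (g0 : ℤ) rfl : (r : ℤ) ∣ (r : ℤ) * g0) h5
      rw [show (r : ℤ) * g0 - ((r : ℤ) * g0 - g0) = g0 by ring] at h7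
      have h8 := Nat.le_of_dvd hg0pos (Int.natCast_dvd_natCast.mp h7)
      omega
    have e3 : gx Q1 (red hM x - (0, (s : ZMod Q1))) = gam Q1 (n + 1) (T - s) := by
      apply gx_eq h3
      · rw [hred]; simp
      · rw [hred]; simp
    rw [e1, e2, ← e3]
    exact g5
  · -- the collision
    have e1 : gx Q y = gam Q (n + 1) (T - s) := by
      apply gx_eq h3Q
      · rw [hy1, hnc]
      · rw [hy2, ← hTc]; push_cast; ring
    have e2 : gam Q (n + 1) (T - s) = gam Q1 (n + 1) (T - s) := by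
      unfold gam
      rw [hQ]
      apply Nat.Coprime.gcd_mul_right_cancel_right
      apply Nat.Coprime.pow_left
      rw [Nat.Prime.coprime_iff_not_dvd hr]
      intro hd
      rw [← Int.natCast_dvd_natCast, Int.dvd_coe_gcd_iff, hb] at hd
      have h5 := dvd_sub d2 hd.1
      have h6 : T + 6 - (T - (s : ℤ) + 6) = (r : ℤ) * g0 - g0 := by
        rw [hs]; push_cast; rw [← hsub]; ring
      rw [h6] at h5
      have h7 := dvd_sub (Dvd.intro (g0 : ℤ) rfl : (r : ℤ) ∣ (r : ℤ) * g0) h5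
      rw [show (r : ℤ) * g0 - ((r : ℤ) * g0 - g0) = g0 by ring] at h7
      have h8 := Nat.le_of_dvd hg0pos (Int.natCast_dvd_natCast.mp h7)
      omega
    have e3 : gx Q1 (red hM x - (0, (s : ZMod Q1))) = gam Q1 (n + 1) (T - s) := by
      apply gx_eq h3
      · rw [hred]; simp
      · rw [hred]; simp
    have e4 : gx Q1 (red hM x - (0, (s : ZMod Q1))) = g0 :=
      gx_shift h3 (Dvd.dvd.mul_right hLf g0) (g3.trans hGL) g5
    have e5 : gx Q y = g0 := by rw [e1, e2, ← e3, e4]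
    unfold St
    rw [e5, hgx, hy1, hy2]
    apply Prod.ext
    · rfl
    · show x.2 - (s : ZMod Q) - (g0 : ZMod Q) + 1 = x.2 - ((r * g0 : ℕ) : ZMod Q) + 1
      have : r * g0 = s + g0 := by
        rw [hs]
        have : r = (r - 1) + 1 := by omega
        conv_lhs => rw [this]
        ring
      rw [this]
      push_cast
      ring

end

end Pool.Agent.K9h55.GV
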