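import Mathlib
import Pool.Agent.K9h55.GV.Coll
import Pool.Agent.Helper379.Div3

/-!
# The gcd recursion for prime triples: the image of many steps has small density
-/

set_option autoImplicit false

namespace Pool.Agent.K9h55.GV

open Finset

section

variable {Q Q1 : ℕ} [NeZero Q] [NeZero Q1]

lemma pr_Hit {r e k G L : ℕ} (hr : r.Prime) (he : 1 ≤ e) (hQ : Q = Q1 * r ^ e)
    (hco : ¬ r ∣ Q1) (h3 : 3 ∣ Q1) (hGL : G ≤ L) (hLr : L < r)
    (hkr : k + 7 < r) (hLf : L.factorial ∣ r - 1) :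
    pr Q1 (Good Q1 r k G L) / (2 * (r : ℝ) ^ 2) ≤ pr Q (Hit Q r k L) := by
  classical
  have hM : Q1 ∣ Q := ⟨r ^ e, hQ⟩
  have hrQ : r ∣ Q := by rw [hQ]; exact Dvd.dvd.mul_left (dvd_pow_self r (by omega)) _
  have hr0 : NeZero r := ⟨hr.pos.ne'⟩
  have hr20 : NeZero (r ^ 2) := ⟨pow_ne_zero 2 hr.pos.ne'⟩
  have hcop : Nat.Coprime Q1 r := by
    apply Nat.Coprime.symm
    exact (Nat.Prime.coprime_iff_not_dvd hr).mpr hco
  set c : ZMod r × ZMod r := (((-7 : ℤ) : ZMod r), ((-6 : ℤ) : ZMod r)) with hc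
  set c2 : ZMod (r ^ 2) × ZMod (r ^ 2) := (((-7 : ℤ) : ZMod (r ^ 2)), ((-6 : ℤ) : ZMod (r ^ 2)))
    with hc2
  have h1 := pr_red_and (Q := Q) hM hrQ hcop (Good Q1 r k G L) c
  have h2 := pr_or (Q := Q) (P := fun x => Good Q1 r k G L (red hM x) ∧ red hrQ x = c)
    (P1 := Hit Q r k L)
    (P2 := fun x => Good Q1 r k G L (red hM x) ∧ ∃ h : r ^ 2 ∣ Q, red h x = c2) (by
      rintro x ⟨hx, hxc⟩
      by_cases h : ∃ h : r ^ 2 ∣ Q, red h x = c2
      · right; exact ⟨hx, h⟩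
      · left
        exact hit_of_good hr he hQ hco h3 hM hrQ hGL hLr hkr hLf hx hxc h)
  have h4 : pr Q (fun x => Good Q1 r k G L (red hM x) ∧ ∃ h : r ^ 2 ∣ Q, red h x = c2)
      ≤ pr Q1 (Good Q1 r k G L) / (((r ^ 2 : ℕ) : ℝ)) ^ 2 := by
    by_cases h : r ^ 2 ∣ Q
    · rw [← pr_red_and (Q := Q) hM h (Nat.Coprime.pow_right 2 hcop) (Good Q1 r k G L) c2]
      apply pr_mono
      rintro x ⟨a, _, b⟩
      exact ⟨a, b⟩
    · have : pr Q (fun x => Good Q1 r k G L (red hM x) ∧ ∃ h : r ^ 2 ∣ Q, red h x = c2)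
          ≤ pr Q (fun _ => False) := pr_mono (fun x hx => h hx.2.1)
      refine this.trans ?_
      rw [pr_eq]
      simp only [Finset.filter_false, Finset.card_empty, Nat.cast_zero, zero_div]
      exact div_nonneg (pr_nonneg _ _) (by positivity)
  rw [h1] at h2
  have hrr : (2 : ℝ) ≤ r := by exact_mod_cast hr.two_le
  have hp := pr_nonneg Q1 (Good Q1 r k G L)
  set g := pr Q1 (Good Q1 r k G L) with hg
  have h5 : g / (((r ^ 2 : ℕ) : ℝ)) ^ 2 ≤ g / (2 * (r : ℝ) ^ 2) := by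
    apply div_le_div_of_nonneg_left hp (by positivity)
    push_cast
    have h7 : (4 : ℝ) ≤ (r : ℝ) ^ 2 := by nlinarith
    nlinarith [mul_nonneg (sub_nonneg.mpr h7) (sq_nonneg (r : ℝ)), sq_nonneg (r : ℝ)]
  have h6 : g / (r : ℝ) ^ 2 = g / (2 * (r : ℝ) ^ 2) + g / (2 * (r : ℝ) ^ 2) := by
    field_simp
    ring
  linarith

end

lemma Hit_lower {Q : ℕ} [NeZero Q] (h3 : 3 ∣ Q) {r k k0 G L C : ℕ} {m : ℝ} (hm : 0 < m)
    (hr : r.Prime) (hrQ : r ∣ Q) (hG : 0 < G) (hGL : G ≤ L) (h3L : 3 ≤ L) (hLr : L < r)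
    (hkr : k + 7 < r) (hLf : L.factorial ∣ r - 1) (hk : k0 ≤ k)
    (hG1 : 60 ≤ m * G) (hL1 : 60 * G * (6 * k0 + 3) ≤ m * L) (hC1 : 360 * G ≤ m * C)
    (hrC : C * (k + 3) ≤ r) (hmk : m ≤ pr Q (Om Q (k + 2)))
    (hmd : pr Q (Om Q k0) - pr Q (Om Q k) ≤ m / (60 * G)) :
    m / (12 * (r : ℝ) ^ 2) ≤ pr Q (Hit Q r k L) := by
  obtain ⟨e, Q1, hco, hQ⟩ := Nat.exists_eq_pow_mul_and_not_dvd (NeZero.ne Q) r hr.ne_one
  rw [mul_comm] at hQ
  have he : 1 ≤ e := by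
    by_contra hcon
    have : e = 0 := by omega
    rw [this, pow_zero, mul_one] at hQ
    exact hco (hQ ▸ hrQ)
  have hQ1 : NeZero Q1 := ⟨fun h => NeZero.ne Q (by rw [hQ, h, zero_mul])⟩
  have hr3 : ¬ (3 : ℕ) ∣ r ^ e := by
    intro h
    have h1 := Nat.Prime.dvd_of_dvd_pow Nat.prime_three h
    have := (Nat.prime_dvd_prime_iff_eq Nat.prime_three hr).mp h1
    omega
  have h3' : 3 ∣ Q1 := by
    rw [hQ] at h3
    exact (Nat.prime_three.dvd_mul.mp h3).resolve_right hr3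
  have a1 := pr_Hit (Q := Q) (Q1 := Q1) hr he hQ hco h3' hGL hLr hkr hLf
  have a2 := pr_Good (Q1 := Q1) h3' (r := r) (k := k) (k0 := k0) (G := G) (L := L)
    (by omega) hG hLf hk
  have a3 := pr_third (Q := Q1) h3' k
  have a4 := pr_Om_le (Q := Q) hr he hQ h3' (k + 2)
  have a5 := pr_Om_ge (Q := Q) hr he hQ h3' k0
  have a6 := pr_Om_le (Q := Q) hr he hQ h3' k
  set GD := pr Q1 (Good Q1 r k G L) with hGD
  have hGr : (0 : ℝ) < G := by exact_mod_cast hG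
  have hG1' : (1 : ℝ) ≤ G := by exact_mod_cast hG
  have hLr' : (0 : ℝ) < L := by exact_mod_cast (by omega : 0 < L)
  have hrr : (0 : ℝ) < r := by exact_mod_cast hr.pos
  have hrC' : (C : ℝ) * (k + 3) ≤ r := by exact_mod_cast hrC
  have hkk : (k0 : ℝ) ≤ k := by exact_mod_cast hk
  have hk0 : (0 : ℝ) ≤ k := Nat.cast_nonneg k
  have hk00 : (0 : ℝ) ≤ k0 := Nat.cast_nonneg k0
  -- the estimates
  have b1 : 3 / (G : ℝ) ≤ m / 20 := by
    rw [div_le_iff₀ hGr]; linarith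
  have b2 : (G : ℝ) * (k0 * (6 / L) + 3 / L) ≤ m / 60 := by
    have : (G : ℝ) * (k0 * (6 / L) + 3 / L) = G * (6 * k0 + 3) / L := by
      field_simp
    rw [this, div_le_iff₀ hLr']
    linarith
  have b3 : (G : ℝ) * (3 * k0 / r + 3 * k / r) ≤ m / 60 := by
    have : (G : ℝ) * (3 * k0 / r + 3 * k / r) = G * (3 * k0 + 3 * k) / r := by
      field_simp
    rw [this, div_le_iff₀ hrr]
    have h1 : (G : ℝ) * (3 * k0 + 3 * k) ≤ 6 * G * (k + 3) := by nlinarith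
    have h2 : 6 * (G : ℝ) * (k + 3) ≤ m / 60 * (C * (k + 3)) := by
      have : 6 * (G : ℝ) ≤ m / 60 * C := by linarith
      nlinarith
    have h4 : m / 60 * (C * (k + 3)) ≤ m / 60 * r := by
      apply mul_le_mul_of_nonneg_left hrC' (by positivity)
    linarith
  have b4 : (k + 2 : ℝ) / r ≤ m / 60 := by
    rw [div_le_iff₀ hrr]
    have h2 : (1 : ℝ) ≤ m / 60 * C := by linarith
    have h4 : m / 60 * (C * (k + 3)) ≤ m / 60 * r := by
      apply mul_le_mul_of_nonneg_left hrC' (by positivity)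
    nlinarith
  have b5 : (G : ℝ) * (pr Q (Om Q k0) - pr Q (Om Q k)) ≤ m / 60 := by
    calc (G : ℝ) * (pr Q (Om Q k0) - pr Q (Om Q k)) ≤ G * (m / (60 * G)) :=
          mul_le_mul_of_nonneg_left hmd hGr.le
      _ = m / 60 := by field_simp
  have b6 : (G : ℝ) * (pr Q1 (Om Q1 k0) - pr Q1 (Om Q1 k)) ≤
      G * (pr Q (Om Q k0) - pr Q (Om Q k)) + G * (3 * k0 / r + 3 * k / r) := by
    rw [← mul_add]
    apply mul_le_mul_of_nonneg_left _ hGr.le
    linarith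
  have b7 : m - 3 * ((k + 2) / r) ≤ 3 * pr Q1 (fun x => Om Q1 k x ∧ x.1.val % 3 = 1) := by
    have : (3 : ℝ) * ((k + 2 : ℕ) : ℝ) / r = 3 * ((k + 2) / r) := by push_cast; ring
    rw [this] at a4
    linarith
  have b8 : m / 6 ≤ GD := by
    have : (G : ℝ) * (k0 * (6 / L) + (pr Q1 (Om Q1 k0) - pr Q1 (Om Q1 k)) + 3 / L)
        = G * (k0 * (6 / L) + 3 / L) + G * (pr Q1 (Om Q1 k0) - pr Q1 (Om Q1 k)) := by ring
    rw [this] at a2
    linarith
  calc m / (12 * (r : ℝ) ^ 2) = (m / 6) / (2 * (r : ℝ) ^ 2) := by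
        rw [div_div]; congr 1; ring
    _ ≤ GD / (2 * (r : ℝ) ^ 2) := by
        apply div_le_div_of_nonneg_right b8 (by positivity)
    _ ≤ _ := a1

/-- the loss of one step -/
lemma loss_step {Q : ℕ} [NeZero Q] (h3 : 3 ∣ Q) {k k0 G L C : ℕ} {m : ℝ} (hm : 0 < m)
    (S : Finset ℕ) (hS : ∀ r ∈ S, r.Prime ∧ r ∣ Q ∧ L < r ∧ L.factorial ∣ r - 1)
    (hG : 0 < G) (hGL : G ≤ L) (h3L : 3 ≤ L) (hC : 8 ≤ C) (hk : k0 ≤ k)
    (hG1 : 60 ≤ m * G) (hL1 : 60 * G * (6 * k0 + 3) ≤ m * L) (hC1 : 360 * G ≤ m * C)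
    (hmk : m ≤ pr Q (Om Q (k + 2)))
    (hmd : pr Q (Om Q k0) - pr Q (Om Q k) ≤ m / (60 * G)) :
    pr Q (Om Q (k + 1)) ≤ pr Q (Om Q k) -
      ∑ r ∈ S.filter (fun r => C * (k + 3) ≤ r), m / (12 * (r : ℝ) ^ 2) := by
  have h1 := loss (Q := Q) h3 L k
  have h2 : ∑ r ∈ S.filter (fun r => C * (k + 3) ≤ r), pr Q (Hit Q r k L) ≤
      pr Q (fun x => Om Q k x ∧ L < gx Q x ∧ ∃ y, Om Q k y ∧ gx Q y ≤ L ∧ St Q y = St Q x) := by
    apply pr_disj
    · intro r hr x hx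
      obtain ⟨hr1, _⟩ := Finset.mem_filter.mp hr
      obtain ⟨_, _, hLr, _⟩ := hS r hr1
      obtain ⟨g, hg0, _, hg, hO, hy⟩ := hx
      refine ⟨hO, ?_, hy⟩
      rw [hg]
      nlinarith
    · intro r hr r' hr' x hx hx'
      obtain ⟨hr1, _⟩ := Finset.mem_filter.mp hr
      obtain ⟨hr1', _⟩ := Finset.mem_filter.mp hr'
      obtain ⟨hp, _, hLr, _⟩ := hS r hr1
      obtain ⟨hp', _, hLr', _⟩ := hS r' hr1'
      obtain ⟨g, hg0, hgL, hg, _⟩ := hx
      obtain ⟨g', hg0', hgL', hg', _⟩ := hx'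
      rw [hg] at hg'
      have h5 : r ∣ r' * g' := ⟨g, hg'.symm⟩
      rcases hp.dvd_mul.mp h5 with h | h
      · exact (Nat.prime_dvd_prime_iff_eq hp hp').mp h
      · have := Nat.le_of_dvd hg0' h
        omega
  have h4 : ∑ r ∈ S.filter (fun r => C * (k + 3) ≤ r), m / (12 * (r : ℝ) ^ 2) ≤
      ∑ r ∈ S.filter (fun r => C * (k + 3) ≤ r), pr Q (Hit Q r k L) := by
    apply Finset.sum_le_sum
    intro r hr
    obtain ⟨hr1, hr2⟩ := Finset.mem_filter.mp hr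
    obtain ⟨hp, hrQ, hLr, hLf⟩ := hS r hr1
    refine Hit_lower h3 hm hp hrQ hG hGL h3L hLr ?_ hLf hk hG1 hL1 hC1 hr2 hmk hmd
    nlinarith
  linarith

/-- the loss of many steps -/
lemma loss_steps {Q : ℕ} [NeZero Q] (h3 : 3 ∣ Q) {k1 k0 G L C : ℕ} {m : ℝ} (hm : 0 < m)
    (S : Finset ℕ) (hS : ∀ r ∈ S, r.Prime ∧ r ∣ Q ∧ L < r ∧ L.factorial ∣ r - 1)
    (hS2 : ∀ r ∈ S, 4 * C * (k0 + 3) ≤ r ∧ r ≤ k1)
    (hG : 0 < G) (hGL : G ≤ L) (h3L : 3 ≤ L) (hC : 8 ≤ C) (hk : k0 ≤ k1)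
    (hG1 : 60 ≤ m * G) (hL1 : 60 * G * (6 * k0 + 3) ≤ m * L) (hC1 : 360 * G ≤ m * C)
    (hmk : m ≤ pr Q (Om Q (k1 + 1)))
    (hmd : pr Q (Om Q k0) - pr Q (Om Q k1) ≤ m / (60 * G)) :
    ∑ r ∈ S, m / (24 * C * (r : ℝ)) ≤ pr Q (Om Q k0) - pr Q (Om Q k1) := by
  have hanti : ∀ a b : ℕ, a ≤ b → pr Q (Om Q b) ≤ pr Q (Om Q a) := by
    intro a b hab
    exact pr_mono (fun x hx => Om_anti' hab hx)
  have key : ∀ k, k0 ≤ k → k ≤ k1 → pr Q (Om Q k) ≤ pr Q (Om Q k0) -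
      ∑ j ∈ Ico k0 k, ∑ r ∈ S.filter (fun r => C * (j + 3) ≤ r), m / (12 * (r : ℝ) ^ 2) := by
    intro k hk
    induction k, hk using Nat.le_induction with
    | base => intro _; simp
    | succ k hk ih =>
      intro hk1
      have ih' := ih (by omega)
      rw [Finset.sum_Ico_succ_top hk]
      have h1 := loss_step (Q := Q) h3 (k := k) hm S hS hG hGL h3L hC hk hG1 hL1 hC1
        (hmk.trans (hanti _ _ (by omega))) (by
          have := hanti k k1 (by omega)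
          linarith)
      linarith
  have h1 := key k1 hk le_rfl
  have h2 : ∑ r ∈ S, m / (24 * C * (r : ℝ)) ≤
      ∑ j ∈ Ico k0 k1, ∑ r ∈ S.filter (fun r => C * (j + 3) ≤ r), m / (12 * (r : ℝ) ^ 2) := by
    have e1 : ∑ j ∈ Ico k0 k1, ∑ r ∈ S.filter (fun r => C * (j + 3) ≤ r), m / (12 * (r : ℝ) ^ 2)
        = ∑ r ∈ S, ∑ j ∈ (Ico k0 k1).filter (fun j => C * (j + 3) ≤ r), m / (12 * (r : ℝ) ^ 2) := by
      simp_rw [Finset.sum_filter]
      rw [Finset.sum_comm]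
    rw [e1]
    apply Finset.sum_le_sum
    intro r hr
    obtain ⟨hr1, hr2⟩ := hS2 r hr
    have hrp : 0 < r := (hS r hr).1.pos
    rw [Finset.sum_const, nsmul_eq_mul]
    have hsub : Ico k0 (r / C - 2) ⊆ (Ico k0 k1).filter (fun j => C * (j + 3) ≤ r) := by
      intro j hj
      rw [Finset.mem_Ico] at hj
      rw [Finset.mem_filter, Finset.mem_Ico]
      have h5 : j + 3 ≤ r / C := by omega
      have h6 : C * (j + 3) ≤ r := by
        calc C * (j + 3) ≤ C * (r / C) := Nat.mul_le_mul_left _ h5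
          _ ≤ r := Nat.mul_div_le r C
      refine ⟨⟨hj.1, ?_⟩, h6⟩
      nlinarith
    have hcard := Finset.card_le_card hsub
    rw [Nat.card_Ico] at hcard
    have hCr : (0 : ℝ) < C := by exact_mod_cast (by omega : 0 < C)
    have hrr : (0 : ℝ) < r := by exact_mod_cast hrp
    -- r / C - 2 - k0 ≥ r / (2 C)
    have h7 : (r : ℝ) / (2 * C) ≤ ((r / C - 2 - k0 : ℕ) : ℝ) := by
      have h8 : (r : ℝ) / C < ((r / C : ℕ) : ℝ) + 1 := by
        rw [div_lt_iff₀ hCr]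
        have : r < C * (r / C + 1) := Nat.lt_mul_div_succ r (by omega)
        have h9 : (r : ℝ) < C * (((r / C : ℕ) : ℝ) + 1) := by exact_mod_cast this
        linarith
      have h10 : (4 : ℝ) * (k0 + 3) ≤ r / C := by
        rw [le_div_iff₀ hCr]
        have : ((4 * C * (k0 + 3) : ℕ) : ℝ) ≤ r := by exact_mod_cast hr1
        push_cast at this
        linarith
      have h11 : ((r / C : ℕ) : ℝ) - 2 - k0 ≤ ((r / C - 2 - k0 : ℕ) : ℝ) := by
        have : r / C ≤ (r / C - 2 - k0) + 2 + k0 := by omega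
        have h12 : ((r / C : ℕ) : ℝ) ≤ ((r / C - 2 - k0 : ℕ) : ℝ) + 2 + k0 := by exact_mod_cast this
        linarith
      have h13 : (r : ℝ) / (2 * C) = (r / C) / 2 := by field_simp
      rw [h13]
      have : (0 : ℝ) ≤ k0 := Nat.cast_nonneg _
      linarith
    have h14 : ((r / C - 2 - k0 : ℕ) : ℝ) ≤
        ((((Ico k0 k1).filter (fun j => C * (j + 3) ≤ r)).card : ℕ) : ℝ) := by exact_mod_cast hcard
    calc m / (24 * C * (r : ℝ)) = (r / (2 * C)) * (m / (12 * (r : ℝ) ^ 2)) := by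
          field_simp
          ring
      _ ≤ _ := by
          apply mul_le_mul_of_nonneg_right (h7.trans h14) (by positivity)
  linarith

/-- finite sets of primes `≡ 1 mod M`, all large, with a large sum of the reciprocals -/
lemma exists_primes (M B : ℕ) (hM : 0 < M) (A : ℝ) :
    ∃ S : Finset ℕ, (∀ r ∈ S, r.Prime ∧ M ∣ r - 1 ∧ B ≤ r) ∧ A ≤ ∑ r ∈ S, (1 : ℝ) / r := by
  classical
  have hM0 : NeZero M := ⟨hM.ne'⟩
  have h := Pool.Agent.Helper379.Div3.not_summable_inv_primes_mod (q := M) (a := 1) isUnit_one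
  by_contra hcon
  push Not at hcon
  apply h
  rw [← summable_nat_add_iff B]
  refine summable_of_sum_range_le (c := A) ?_ ?_
  · intro n; split_ifs <;> positivity
  · intro n
    set S : Finset ℕ := ((range n).image (fun i => i + B)).filter
      (fun r => r.Prime ∧ (r : ZMod M) = 1) with hS
    have h1 := hcon S (by
      intro r hr
      rw [hS, Finset.mem_filter, Finset.mem_image] at hr
      obtain ⟨⟨i, _, hi⟩, hp, h1⟩ := hr
      refine ⟨hp, ?_, by omega⟩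
      have h2 : ((r - 1 : ℕ) : ZMod M) = 0 := by
        rw [Nat.cast_sub hp.one_lt.le, h1]; simp
      exact (ZMod.natCast_eq_zero_iff _ _).mp h2)
    have h2 : ∑ i ∈ range n, (if (i + B).Prime ∧ ((i + B : ℕ) : ZMod M) = 1
        then (1 : ℝ) / ((i + B : ℕ) : ℝ) else 0) = ∑ r ∈ S, (1 : ℝ) / r := by
      rw [hS, Finset.sum_filter, Finset.sum_image]
      intro a _ b _ hab
      exact Nat.add_right_cancel hab
    rw [h2]
    exact h1.le

/-- one stage -/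
lemma stage (m : ℝ) (hm : 0 < m) : ∃ ε : ℝ, 0 < ε ∧ ∀ k0 : ℕ, ∃ k1 Q0 : ℕ, k0 ≤ k1 ∧ 0 < Q0 ∧
    ∀ (Q : ℕ) [NeZero Q], Q0 ∣ Q → 3 ∣ Q →
      pr Q (Om Q k1) ≤ m ∨ pr Q (Om Q k1) ≤ pr Q (Om Q k0) - ε := by
  classical
  set G : ℕ := ⌈60 / m⌉₊ with hGdef
  have hG : 0 < G := Nat.ceil_pos.mpr (by positivity)
  have hG1 : 60 ≤ m * G := by
    have := Nat.le_ceil (60 / m)
    rw [div_le_iff₀ hm] at this
    linarith
  set C : ℕ := ⌈360 * G / m⌉₊ + 8 with hCdef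
  have hC1 : 360 * G ≤ m * C := by
    have := Nat.le_ceil (360 * G / m)
    rw [div_le_iff₀ hm] at this
    rw [hCdef]; push_cast
    nlinarith
  have hGr : (0 : ℝ) < G := by exact_mod_cast hG
  have hCr : (0 : ℝ) < C := by rw [hCdef]; push_cast; positivity
  refine ⟨m / (60 * G), by positivity, ?_⟩
  intro k0
  set L : ℕ := ⌈60 * G * (6 * k0 + 3) / m⌉₊ + G + 3 with hLdef
  have hL1 : 60 * G * (6 * k0 + 3) ≤ m * L := by
    have := Nat.le_ceil (60 * G * (6 * k0 + 3) / m)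
    rw [div_le_iff₀ hm] at this
    rw [hLdef]; push_cast
    nlinarith
  obtain ⟨S, hS, hSA⟩ := exists_primes L.factorial (4 * C * (k0 + 3) + L + 1)
    (Nat.factorial_pos L) (m / (60 * G) * (24 * C) / m)
  refine ⟨k0 + S.sup id + 1, ∏ r ∈ S, r, by omega, ?_, ?_⟩
  · apply Finset.prod_pos
    intro r hr
    exact (hS r hr).1.pos
  · intro Q _ hQ0 h3
    by_contra hcon
    push Not at hcon
    obtain ⟨c1, c2⟩ := hcon
    set k1 := k0 + S.sup id with hk1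
    have hanti : ∀ a b : ℕ, a ≤ b → pr Q (Om Q b) ≤ pr Q (Om Q a) := by
      intro a b hab
      exact pr_mono (fun x hx => Om_anti' hab hx)
    have h1 := loss_steps (Q := Q) h3 (k1 := k1) (k0 := k0) (G := G) (L := L) (C := C) hm S
      (by
        intro r hr
        obtain ⟨a, b, c⟩ := hS r hr
        exact ⟨a, (Finset.dvd_prod_of_mem _ hr).trans hQ0, by omega, b⟩)
      (by
        intro r hr
        obtain ⟨a, b, c⟩ := hS r hr
        refine ⟨by omega, ?_⟩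
        have : r ≤ S.sup id := Finset.le_sup (f := id) hr
        omega)
      hG (by omega) (by omega) (by omega) (by omega) hG1 hL1 hC1 c1.le (by
        have := hanti k1 (k1 + 1) (by omega)
        linarith)
    have h2 : ∑ r ∈ S, m / (24 * C * (r : ℝ)) = m / (24 * C) * ∑ r ∈ S, (1 : ℝ) / r := by
      rw [Finset.mul_sum]
      apply Finset.sum_congr rfl
      intro r _
      rw [mul_one_div, div_div]
    have h4 : m / (60 * G) ≤ m / (24 * C) * ∑ r ∈ S, (1 : ℝ) / r := by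
      calc m / (60 * G) = m / (24 * C) * (m / (60 * G) * (24 * C) / m) := by field_simp
        _ ≤ _ := mul_le_mul_of_nonneg_left hSA (by positivity)
    have := hanti k1 (k1 + 1) (by omega)
    linarith

/-- the image of many steps has small density -/
theorem density_small (m : ℝ) (hm : 0 < m) : ∃ K Q0 : ℕ, 0 < Q0 ∧
    ∀ (Q : ℕ) [NeZero Q], Q0 ∣ Q → 3 ∣ Q → pr Q (Om Q K) ≤ m := by
  obtain ⟨ε, hε, hst⟩ := stage m hm
  have key : ∀ j : ℕ, ∃ K Q0 : ℕ, 0 < Q0 ∧ ∀ (Q : ℕ) [NeZero Q], Q0 ∣ Q → 3 ∣ Q →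
      pr Q (Om Q K) ≤ m ∨ pr Q (Om Q K) ≤ 1 - j * ε := by
    intro j
    induction j with
    | zero =>
      refine ⟨0, 1, one_pos, ?_⟩
      intro Q _ _ _
      right
      simpa using pr_le_one Q (Om Q 0)
    | succ j ih =>
      obtain ⟨K, Q0, hQ0, h⟩ := ih
      obtain ⟨k1, Q1, hk, hQ1, h1⟩ := hst K
      refine ⟨k1, Q0 * Q1, Nat.mul_pos hQ0 hQ1, ?_⟩
      intro Q _ hQ h3
      have hanti : pr Q (Om Q k1) ≤ pr Q (Om Q K) := pr_mono (fun x hx => Om_anti' hk hx)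
      rcases h Q ((Dvd.intro _ rfl).trans hQ) h3 with a | a
      · left; linarith
      · rcases h1 Q ((Dvd.intro_left _ rfl).trans hQ) h3 with b | b
        · left; exact b
        · right
          push_cast
          linarith
  obtain ⟨j, hj⟩ := exists_nat_gt (1 / ε)
  obtain ⟨K, Q0, hQ0, h⟩ := key j
  refine ⟨K, Q0, hQ0, ?_⟩
  intro Q _ hQ h3
  rcases h Q hQ h3 with a | a
  · exact a
  · have h1 : 1 < j * ε := by
      rw [div_lt_iff₀ hε] at hj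
      exact hj
    have := pr_nonneg Q (Om Q K)
    linarith

end Pool.Agent.K9h55.GV
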