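import Mathlib
import Pool.Agent.K9h55.GV.Stage

/-!
# The gcd recursion for prime triples: from the finite model to the recursion
-/

set_option autoImplicit false

namespace Pool.Agent.K9h55.GV

open Finset Filter

/-- the gcd of the recursion -/
def tg (n T : ℤ) : ℕ := Int.gcd (T + bz n) (n + bz n)

lemma gam_eq_tg {Q L : ℕ} (hLQ : L.factorial ∣ Q) {n T : ℤ} (h0 : 0 < tg n T) (h : tg n T ≤ L) :
    gam Q n T = tg n T :=
  Nat.gcd_eq_left ((Nat.dvd_factorial h0 h).trans hLQ)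

lemma card_mult (M d : ℕ) (c : ℤ) (hc : c = 0 ∨ c = 2 ∨ c = 6) :
    ((Icc 1 M).filter (fun n : ℕ => (d : ℤ) ∣ (n : ℤ) + c)).card ≤ (M + 6) / d := by
  obtain ⟨c', rfl, hc'⟩ : ∃ c' : ℕ, c = c' ∧ c' ≤ 6 := by
    rcases hc with h | h | h
    · exact ⟨0, by simp [h], by omega⟩
    · exact ⟨2, by simp [h], by omega⟩
    · exact ⟨6, by simp [h], by omega⟩
  rw [← Nat.Ioc_filter_dvd_card_eq_div (M + 6) d]
  apply Finset.card_le_card_of_injOn (fun n => n + c')
  · intro n hn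
    simp only [coe_filter, mem_Icc, Set.mem_ofPred_eq, mem_Ioc] at hn ⊢
    refine ⟨by omega, ?_⟩
    have := hn.2
    exact_mod_cast this
  · intro a _ b _ hab
    simpa using hab

/-- few pairs have a large gcd -/
lemma card_bad (M X L : ℕ) (hL : 0 < L) :
    ((((Icc 1 M) ×ˢ (Icc 1 X)).filter (fun p : ℕ × ℕ => L < tg p.1 p.2)).card : ℝ) ≤
      3 * (M + 6) * (X + 6) / L := by
  classical
  set S : Finset (ℕ × ℤ) := (Ioc L (M + 6)) ×ˢ ({0, 2, 6} : Finset ℤ) with hS
  have h1 : ((Icc 1 M) ×ˢ (Icc 1 X)).filter (fun p : ℕ × ℕ => L < tg p.1 p.2) ⊆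
      S.biUnion (fun q => ((Icc 1 M).filter (fun n : ℕ => (q.1 : ℤ) ∣ (n : ℤ) + q.2)) ×ˢ
        ((Icc 1 X).filter (fun n : ℕ => (q.1 : ℤ) ∣ (n : ℤ) + q.2))) := by
    rintro ⟨n, T⟩ hp
    rw [Finset.mem_filter, Finset.mem_product] at hp
    obtain ⟨⟨hn, hT⟩, hg⟩ := hp
    simp only at hn hT hg
    rw [Finset.mem_biUnion]
    have hd1 : ((tg n T : ℕ) : ℤ) ∣ (T : ℤ) + bz n := Int.gcd_dvd_left ..
    have hd2 : ((tg n T : ℕ) : ℤ) ∣ (n : ℤ) + bz n := Int.gcd_dvd_right ..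
    have hbc := bz_cases (n : ℤ)
    rw [Finset.mem_Icc] at hn
    refine ⟨(tg n T, bz n), ?_, ?_⟩
    · rw [hS, Finset.mem_product]
      constructor
      · rw [Finset.mem_Ioc]
        refine ⟨hg, ?_⟩
        have h5 := Int.le_of_dvd (by rcases hbc with h | h | h <;> rw [h] <;> omega) hd2
        show tg n T ≤ M + 6
        rcases hbc with h | h | h <;> rw [h] at h5 <;> omega
      · simp only [Finset.mem_insert, Finset.mem_singleton]
        tauto
    · rw [Finset.mem_product, Finset.mem_filter, Finset.mem_filter]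
      exact ⟨⟨Finset.mem_Icc.mpr hn, hd2⟩, ⟨hT, hd1⟩⟩
  have h2 := (Finset.card_le_card h1).trans Finset.card_biUnion_le
  have h3 : ∑ q ∈ S, (((Icc 1 M).filter (fun n : ℕ => (q.1 : ℤ) ∣ (n : ℤ) + q.2)) ×ˢ
        ((Icc 1 X).filter (fun n : ℕ => (q.1 : ℤ) ∣ (n : ℤ) + q.2))).card ≤
      ∑ q ∈ S, ((M + 6) / q.1) * ((X + 6) / q.1) := by
    apply Finset.sum_le_sum
    intro q hq
    rw [Finset.card_product]
    rw [hS, Finset.mem_product] at hq
    have hq2 := hq.2
    simp only [Finset.mem_insert, Finset.mem_singleton] at hq2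
    exact Nat.mul_le_mul (card_mult M q.1 q.2 hq2) (card_mult X q.1 q.2 hq2)
  have h4 : ((∑ q ∈ S, ((M + 6) / q.1) * ((X + 6) / q.1) : ℕ) : ℝ) ≤
      ∑ q ∈ S, ((M : ℝ) + 6) * (X + 6) * (1 / (q.1 : ℝ) ^ 2) := by
    push_cast
    apply Finset.sum_le_sum
    intro q hq
    have e1 : (((M + 6) / q.1 : ℕ) : ℝ) ≤ (M + 6) / q.1 := by
      have := Nat.cast_div_le (α := ℝ) (m := M + 6) (n := q.1)
      exact_mod_cast this
    have e2 : (((X + 6) / q.1 : ℕ) : ℝ) ≤ (X + 6) / q.1 := by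
      have := Nat.cast_div_le (α := ℝ) (m := X + 6) (n := q.1)
      exact_mod_cast this
    calc (((M + 6) / q.1 : ℕ) : ℝ) * (((X + 6) / q.1 : ℕ) : ℝ)
        ≤ ((M + 6) / q.1) * ((X + 6) / q.1) := by
          apply mul_le_mul e1 e2 (by positivity) (by positivity)
      _ = _ := by ring
  have h5 : ∑ q ∈ S, ((M : ℝ) + 6) * (X + 6) * (1 / (q.1 : ℝ) ^ 2) ≤
      3 * ((M : ℝ) + 6) * ((X : ℝ) + 6) / (L : ℝ) := by
    rw [← Finset.mul_sum, hS, Finset.sum_product]
    have h6 : ∀ d ∈ Ioc L (M + 6), ∑ c ∈ ({0, 2, 6} : Finset ℤ), (1 : ℝ) / (d : ℝ) ^ 2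
        = 3 * (1 / (d : ℝ) ^ 2) := by
      intro d _
      rw [Finset.sum_const]
      have : ({0, 2, 6} : Finset ℤ).card = 3 := by decide
      rw [this]
      simp
    rw [Finset.sum_congr rfl h6, ← Finset.mul_sum]
    have h7 := sum_sq_le L (M + 6) hL
    calc ((M : ℝ) + 6) * (X + 6) * (3 * ∑ d ∈ Ioc L (M + 6), (1 : ℝ) / (d : ℝ) ^ 2)
        ≤ ((M : ℝ) + 6) * (X + 6) * (3 * (1 / L)) := by
          apply mul_le_mul_of_nonneg_left (by linarith) (by positivity)
      _ = _ := by ring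
  have h8 : ((((Icc 1 M) ×ˢ (Icc 1 X)).filter (fun p : ℕ × ℕ => L < tg p.1 p.2)).card : ℝ) ≤
      ((∑ q ∈ S, ((M + 6) / q.1) * ((X + 6) / q.1) : ℕ) : ℝ) := by
    exact_mod_cast h2.trans h3
  linarith

/-- the points of the image of `K` steps in a box -/
lemma card_box {Q : ℕ} [NeZero Q] (h3 : 3 ∣ Q) (K X : ℕ) :
    by classical exact
      (((((Ioc Q (2 * Q)) ×ˢ (Icc 1 X)).filter
        (fun p : ℕ × ℕ => R Q K p.1 p.2)).card : ℝ) ≤ (X + Q) * Q * pr Q (Om Q K)) := by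
  classical
  have h1 : (((Ioc Q (2 * Q)) ×ˢ (Icc 1 X)).filter (fun p : ℕ × ℕ => R Q K p.1 p.2)).card ≤
      ((univ.filter (Om Q K)) ×ˢ (range (X / Q + 1))).card := by
    apply Finset.card_le_card_of_injOn
      (fun p : ℕ × ℕ => (((p.1 : ZMod Q), (p.2 : ZMod Q)), p.2 / Q))
    · rintro ⟨n, T⟩ hp
      rw [Finset.mem_coe, Finset.mem_filter, Finset.mem_product, Finset.mem_Ioc,
        Finset.mem_Icc] at hp
      simp only at hp
      rw [Finset.mem_coe, Finset.mem_product, Finset.mem_filter, Finset.mem_range]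
      refine ⟨⟨Finset.mem_univ _, ?_⟩, ?_⟩
      · rw [Om_iff h3 (n := (n : ℤ)) (T := (T : ℤ))]
        · exact hp.2
        · simp
        · simp
      · have := Nat.div_le_div_right (c := Q) hp.1.2.2
        show T / Q < X / Q + 1
        omega
    · rintro ⟨n, T⟩ hp ⟨n', T'⟩ hp' he
      rw [Finset.mem_coe, Finset.mem_filter, Finset.mem_product, Finset.mem_Ioc,
        Finset.mem_Icc] at hp hp'
      simp only [Prod.mk.injEq] at hp hp' he
      obtain ⟨⟨e1, e2⟩, e3⟩ := he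
      rw [ZMod.natCast_eq_natCast_iff'] at e1 e2
      have q1 := Nat.div_add_mod T Q
      have q2 := Nat.div_add_mod T' Q
      rw [e2, e3] at q1
      have hTT : T = T' := by omega
      have q3 := Nat.div_add_mod n Q
      have q4 := Nat.div_add_mod n' Q
      have hQ := NeZero.pos Q
      have hm1 : (n - 1) / Q = 1 := by
        rw [Nat.div_eq_iff (by omega)]; omega
      have hm2 : (n' - 1) / Q = 1 := by
        rw [Nat.div_eq_iff (by omega)]; omega
      have hnn : n = n' := by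
        have hd : (Q : ℤ) ∣ (n : ℤ) - n' := by
          have : n' ≡ n [MOD Q] := e1.symm
          exact (Nat.modEq_iff_dvd).mp this
        obtain ⟨j, hj⟩ := hd
        have hQ' : (0 : ℤ) < Q := by exact_mod_cast hQ
        have hlt : (n : ℤ) - n' < Q := by omega
        have hgt : -(Q : ℤ) < (n : ℤ) - n' := by omega
        have hj0 : j = 0 := by
          have : j < 1 := by nlinarith
          have : -1 < j := by nlinarith
          omega
        rw [hj0] at hj
        omega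
      rw [hTT, hnn]
  rw [Finset.card_product, Finset.card_range] at h1
  have hQr := qpos Q
  have h2 : (((((Ioc Q (2 * Q)) ×ˢ (Icc 1 X)).filter
        (fun p : ℕ × ℕ => R Q K p.1 p.2)).card : ℕ) : ℝ) ≤
      ((univ.filter (Om Q K)).card : ℝ) * ((X / Q : ℕ) + 1) := by exact_mod_cast h1
  have h4 : ((univ.filter (Om Q K)).card : ℝ) = pr Q (Om Q K) * (Q : ℝ) ^ 2 := by
    rw [pr_eq]; field_simp
  have h5 : (((X / Q : ℕ) : ℝ) + 1) * Q ≤ X + Q := by
    have : ((X / Q : ℕ) : ℝ) ≤ X / Q := Nat.cast_div_le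
    have h6 : ((X / Q : ℕ) : ℝ) * Q ≤ X := by
      calc ((X / Q : ℕ) : ℝ) * Q ≤ (X / Q : ℝ) * Q := by
            apply mul_le_mul_of_nonneg_right this hQr.le
        _ = X := by field_simp
    linarith
  refine h2.trans ?_
  rw [h4]
  have h7 := pr_nonneg Q (Om Q K)
  calc pr Q (Om Q K) * (Q : ℝ) ^ 2 * (((X / Q : ℕ) : ℝ) + 1)
      = (pr Q (Om Q K) * Q) * ((((X / Q : ℕ) : ℝ) + 1) * Q) := by ring
    _ ≤ (pr Q (Om Q K) * Q) * (X + Q) := by
        apply mul_le_mul_of_nonneg_left h5 (by positivity)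
    _ = _ := by ring

/-- the points that are not in the image of `k` steps of the model come from large gcds -/
lemma exc {Q L X H : ℕ} (hLQ : L.factorial ∣ Q) (A : ℕ → Finset ℕ)
    (hA : ∀ n, 1 ≤ n → n < H → ∀ T ∈ A (n + 1), ∃ T' ∈ A n,
      (T : ℤ) = (T' : ℤ) - tg ((n + 1 : ℕ) : ℤ) T' + 1)
    (hX : ∀ n, 1 ≤ n → n ≤ H → ∀ T ∈ A n, 1 ≤ T ∧ T ≤ X) (k : ℕ) :
    ∀ n, k + 1 ≤ n → n ≤ H → by classical exact
      (((A n).filter (fun T : ℕ => ¬ R Q k n T)).card ≤
      ∑ i ∈ range k, ((Icc 1 X).filter (fun T : ℕ => L < tg ((n - i : ℕ) : ℤ) T)).card) := by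
  classical
  induction k with
  | zero =>
    intro n _ _
    simp [R]
  | succ k ih =>
    intro n hn hnH
    obtain ⟨n', rfl⟩ : ∃ n', n = n' + 1 := ⟨n - 1, by omega⟩
    have h1 := ih n' (by omega) (by omega)
    rw [Finset.sum_range_succ']
    have h2 : ∑ i ∈ range k, ((Icc 1 X).filter
        (fun T : ℕ => L < tg ((n' + 1 - (i + 1) : ℕ) : ℤ) T)).card =
        ∑ i ∈ range k, ((Icc 1 X).filter (fun T : ℕ => L < tg ((n' - i : ℕ) : ℤ) T)).card := by
      apply Finset.sum_congr rfl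
      intro i _
      rw [Nat.add_sub_add_right]
    rw [h2]
    have h4 : ((A (n' + 1)).filter (fun T : ℕ => ¬ R Q (k + 1) ((n' + 1 : ℕ) : ℤ) T)).card ≤
        (((A n').filter (fun T : ℕ => ¬ R Q k n' T)) ∪
          ((Icc 1 X).filter (fun T : ℕ => L < tg ((n' + 1 : ℕ) : ℤ) T))).card := by
      have hsub : ((A (n' + 1)).filter (fun T : ℕ => ¬ R Q (k + 1) ((n' + 1 : ℕ) : ℤ) T)) ⊆
          (((A n').filter (fun T : ℕ => ¬ R Q k n' T)) ∪
          ((Icc 1 X).filter (fun T : ℕ => L < tg ((n' + 1 : ℕ) : ℤ) T))).image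
            (fun T' : ℕ => ((T' : ℤ) - tg ((n' + 1 : ℕ) : ℤ) T' + 1).toNat) := by
        intro T hT
        rw [Finset.mem_filter] at hT
        obtain ⟨hT1, hT2⟩ := hT
        obtain ⟨T', hT', e⟩ := hA n' (by omega) (by omega) T hT1
        rw [Finset.mem_image]
        refine ⟨T', ?_, by rw [← e]; simp⟩
        rw [Finset.mem_union, Finset.mem_filter, Finset.mem_filter]
        by_contra hcon
        push Not at hcon
        obtain ⟨c1, c2⟩ := hcon
        have c3 := c1 hT'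
        have c4 := c2 (Finset.mem_Icc.mpr (hX n' (by omega) (by omega) T' hT'))
        apply hT2
        refine ⟨(T' : ℤ), ?_, ?_⟩
        · have : ((n' + 1 : ℕ) : ℤ) - 1 = n' := by push_cast; ring
          rw [this]
          exact c3
        · have hpos : 0 < tg ((n' + 1 : ℕ) : ℤ) T' := by
            rw [Nat.pos_iff_ne_zero]
            intro h0
            have h1' : Int.gcd ((T' : ℤ) + bz ((n' + 1 : ℕ) : ℤ))
              (((n' + 1 : ℕ) : ℤ) + bz ((n' + 1 : ℕ) : ℤ)) = 0 := h0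
            rw [Int.gcd_eq_zero_iff] at h1'
            have := bz_cases ((n' + 1 : ℕ) : ℤ)
            have h5 := h1'.2
            rcases this with h | h | h <;> rw [h] at h5 <;> omega
          rw [gam_eq_tg hLQ hpos c4]
          exact e
      exact (Finset.card_le_card hsub).trans Finset.card_image_le
    refine h4.trans ((Finset.card_union_le _ _).trans ?_)
    simp only [Nat.sub_zero]
    omega

/-- after a bounded time the trajectories that start below `X` have merged into `≤ ε X` ones -/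
theorem transfer (ε : ℝ) (hε : 0 < ε) : ∃ H : ℕ, 1 ≤ H ∧ ∀ᶠ X : ℕ in atTop,
    ∀ A : ℕ → Finset ℕ,
    (∀ n, 1 ≤ n → n < H → ∀ T ∈ A (n + 1), ∃ T' ∈ A n,
      (T : ℤ) = (T' : ℤ) - tg ((n + 1 : ℕ) : ℤ) T' + 1) →
    (∀ n, 1 ≤ n → n ≤ H → ∀ T ∈ A n, 1 ≤ T ∧ T ≤ X) →
    ((A H).card : ℝ) ≤ ε * X := by
  classical
  obtain ⟨K, Q0, hQ0, hK⟩ := density_small (ε / 4) (by positivity)
  set L : ℕ := ⌈100 * (K : ℝ) / ε⌉₊ + K + 1 with hL
  have hL1 : 100 * (K : ℝ) ≤ ε * L := by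
    have := Nat.le_ceil (100 * (K : ℝ) / ε)
    rw [div_le_iff₀ hε] at this
    rw [hL]; push_cast
    have hK0 : (0 : ℝ) ≤ K := Nat.cast_nonneg _
    nlinarith
  set Q : ℕ := Q0 * 3 * L.factorial with hQ
  have hQpos : 0 < Q := by rw [hQ]; positivity
  have : NeZero Q := ⟨hQpos.ne'⟩
  have hLQ : L.factorial ∣ Q := Dvd.intro_left _ rfl
  have h3Q : 3 ∣ Q := by rw [hQ]; exact Dvd.dvd.mul_right (Dvd.intro_left _ rfl) _
  have hQ0Q : Q0 ∣ Q := by rw [hQ, mul_assoc]; exact Dvd.intro _ rfl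
  have hKQ : K + 1 ≤ Q := by
    have h1 : L ≤ L.factorial := Nat.self_le_factorial L
    have h2 : L.factorial ≤ Q := Nat.le_of_dvd hQpos hLQ
    omega
  refine ⟨2 * Q, by omega, ?_⟩
  filter_upwards [eventually_ge_atTop Q, eventually_ge_atTop 6] with X hXQ hX6
  intro A hA hX
  -- the sizes decrease
  have hstep : ∀ n, 1 ≤ n → n < 2 * Q → (A (n + 1)).card ≤ (A n).card := by
    intro n hn1 hn2
    have hsub : A (n + 1) ⊆ (A n).image
        (fun T' : ℕ => ((T' : ℤ) - tg ((n + 1 : ℕ) : ℤ) T' + 1).toNat) := by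
      intro T hT
      obtain ⟨T', hT', e⟩ := hA n hn1 hn2 T hT
      exact Finset.mem_image.mpr ⟨T', hT', by rw [← e]; simp⟩
    exact (Finset.card_le_card hsub).trans Finset.card_image_le
  have hmono : ∀ n, 1 ≤ n → n ≤ 2 * Q → (A (2 * Q)).card ≤ (A n).card := by
    intro n hn1 hn2
    have : ∀ m, n ≤ m → m ≤ 2 * Q → (A m).card ≤ (A n).card := by
      intro m hm
      induction m, hm using Nat.le_induction with
      | base => intro _; exact le_rfl
      | succ m hm ih =>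
        intro hm2
        exact (hstep m (by omega) (by omega)).trans (ih (by omega))
    exact this (2 * Q) hn2 le_rfl
  -- the sum over a period
  have hsum : Q * (A (2 * Q)).card ≤ ∑ n ∈ Ioc Q (2 * Q), (A n).card := by
    have h1 : ∑ n ∈ Ioc Q (2 * Q), (A (2 * Q)).card = Q * (A (2 * Q)).card := by
      rw [Finset.sum_const, Nat.card_Ioc, smul_eq_mul]
      congr 1
      omega
    rw [← h1]
    apply Finset.sum_le_sum
    intro n hn
    rw [Finset.mem_Ioc] at hn
    exact hmono n (by omega) hn.2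
  have hsplit : ∀ n ∈ Ioc Q (2 * Q), (A n).card ≤
      ((Icc 1 X).filter (fun T : ℕ => R Q K n T)).card +
      ∑ i ∈ range K, ((Icc 1 X).filter (fun T : ℕ => L < tg ((n - i : ℕ) : ℤ) T)).card := by
    intro n hn
    rw [Finset.mem_Ioc] at hn
    have h1 := exc hLQ A hA hX K n (by omega) hn.2
    have h2 : (A n).card = ((A n).filter (fun T : ℕ => R Q K n T)).card +
        ((A n).filter (fun T : ℕ => ¬ R Q K n T)).card :=
      (Finset.card_filter_add_card_filter_not _).symm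
    have h4 : ((A n).filter (fun T : ℕ => R Q K n T)).card ≤
        ((Icc 1 X).filter (fun T : ℕ => R Q K n T)).card := by
      apply Finset.card_le_card
      intro T hT
      rw [Finset.mem_filter] at hT ⊢
      exact ⟨Finset.mem_Icc.mpr (hX n (by omega) hn.2 T hT.1), hT.2⟩
    omega
  have hs1 : ∑ n ∈ Ioc Q (2 * Q), ((Icc 1 X).filter (fun T : ℕ => R Q K n T)).card =
      (((Ioc Q (2 * Q)) ×ˢ (Icc 1 X)).filter (fun p : ℕ × ℕ => R Q K p.1 p.2)).card := by
    simp_rw [Finset.card_filter]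
    rw [Finset.sum_product]
  have hs2 : ∑ n ∈ Ioc Q (2 * Q), ∑ i ∈ range K,
      ((Icc 1 X).filter (fun T : ℕ => L < tg ((n - i : ℕ) : ℤ) T)).card ≤
      K * (((Icc 1 (2 * Q)) ×ˢ (Icc 1 X)).filter (fun p : ℕ × ℕ => L < tg p.1 p.2)).card := by
    have e1 : (((Icc 1 (2 * Q)) ×ˢ (Icc 1 X)).filter (fun p : ℕ × ℕ => L < tg p.1 p.2)).card =
        ∑ n ∈ Icc 1 (2 * Q), ((Icc 1 X).filter (fun T : ℕ => L < tg n T)).card := by
      simp_rw [Finset.card_filter]
      rw [Finset.sum_product]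
    rw [e1, Finset.sum_comm]
    have e2 : ∀ i ∈ range K, ∑ n ∈ Ioc Q (2 * Q),
        ((Icc 1 X).filter (fun T : ℕ => L < tg ((n - i : ℕ) : ℤ) T)).card ≤
        ∑ n ∈ Icc 1 (2 * Q), ((Icc 1 X).filter (fun T : ℕ => L < tg n T)).card := by
      intro i hi
      rw [Finset.mem_range] at hi
      have e3 : ∑ n ∈ Ioc Q (2 * Q),
          ((Icc 1 X).filter (fun T : ℕ => L < tg ((n - i : ℕ) : ℤ) T)).card =
          ∑ n ∈ (Ioc Q (2 * Q)).image (fun n => n - i),
            ((Icc 1 X).filter (fun T : ℕ => L < tg n T)).card := by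
        rw [Finset.sum_image]
        intro a ha b hb hab
        rw [Finset.mem_coe, Finset.mem_Ioc] at ha hb
        simp only at hab
        omega
      rw [e3]
      apply Finset.sum_le_sum_of_subset
      intro n hn
      rw [Finset.mem_image] at hn
      obtain ⟨m, hm, rfl⟩ := hn
      rw [Finset.mem_Ioc] at hm
      rw [Finset.mem_Icc]
      omega
    calc _ ≤ ∑ i ∈ range K, ∑ n ∈ Icc 1 (2 * Q),
            ((Icc 1 X).filter (fun T : ℕ => L < tg n T)).card := Finset.sum_le_sum e2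
      _ = _ := by rw [Finset.sum_const, Finset.card_range, smul_eq_mul]
  have htot : Q * (A (2 * Q)).card ≤
      (((Ioc Q (2 * Q)) ×ˢ (Icc 1 X)).filter (fun p : ℕ × ℕ => R Q K p.1 p.2)).card +
      K * (((Icc 1 (2 * Q)) ×ˢ (Icc 1 X)).filter (fun p : ℕ × ℕ => L < tg p.1 p.2)).card := by
    refine hsum.trans ((Finset.sum_le_sum hsplit).trans ?_)
    rw [Finset.sum_add_distrib, hs1]
    omega
  have hb1 := card_box (Q := Q) h3Q K X
  have hb2 := card_bad (2 * Q) X L (by omega)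
  have hb3 := hK Q hQ0Q h3Q
  have htot' : (Q : ℝ) * (A (2 * Q)).card ≤
      ((((Ioc Q (2 * Q)) ×ˢ (Icc 1 X)).filter (fun p : ℕ × ℕ => R Q K p.1 p.2)).card : ℝ) +
      K * ((((Icc 1 (2 * Q)) ×ˢ (Icc 1 X)).filter
        (fun p : ℕ × ℕ => L < tg p.1 p.2)).card : ℝ) := by
    exact_mod_cast htot
  have hQr := qpos Q
  have hQ1 : (1 : ℝ) ≤ Q := by exact_mod_cast hQpos
  have hXr : (Q : ℝ) ≤ X := by exact_mod_cast hXQ
  have hX6' : (6 : ℝ) ≤ X := by exact_mod_cast hX6
  have hLr : (0 : ℝ) < L := by exact_mod_cast (by omega : 0 < L)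
  have hK0 : (0 : ℝ) ≤ K := Nat.cast_nonneg _
  have hc1 : (((X : ℝ) + Q) * Q * pr Q (Om Q K)) ≤ Q * (ε / 2 * X) := by
    calc (((X : ℝ) + Q) * Q * pr Q (Om Q K)) ≤ ((X : ℝ) + Q) * Q * (ε / 4) := by
          apply mul_le_mul_of_nonneg_left hb3 (by positivity)
      _ ≤ (X + X) * Q * (ε / 4) := by
          apply mul_le_mul_of_nonneg_right _ (by positivity)
          apply mul_le_mul_of_nonneg_right (by linarith) (by positivity)
      _ = _ := by ring
  have hc2 : (K : ℝ) * (3 * ((2 * Q : ℕ) + 6) * (X + 6) / L) ≤ Q * (ε / 2 * X) := by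
    push_cast
    have h1 : (3 : ℝ) * (2 * Q + 6) * (X + 6) ≤ 3 * (8 * Q) * (2 * X) := by
      apply mul_le_mul _ (by linarith) (by positivity) (by positivity)
      linarith
    calc (K : ℝ) * (3 * (2 * Q + 6) * (X + 6) / L) ≤ K * (3 * (8 * Q) * (2 * X) / L) := by
          apply mul_le_mul_of_nonneg_left _ hK0
          apply div_le_div_of_nonneg_right h1 hLr.le
      _ = (48 * K) / L * (Q * X) := by ring
      _ ≤ (ε / 2) * (Q * X) := by
          apply mul_le_mul_of_nonneg_right _ (by positivity)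
          rw [div_le_iff₀ hLr]
          linarith
      _ = _ := by ring
  have hfin : (Q : ℝ) * (A (2 * Q)).card ≤ Q * (ε * X) := by
    have h1 : (K : ℝ) * ((((Icc 1 (2 * Q)) ×ˢ (Icc 1 X)).filter
        (fun p : ℕ × ℕ => L < tg p.1 p.2)).card : ℝ) ≤
        K * (3 * ((2 * Q : ℕ) + 6) * (X + 6) / L) := mul_le_mul_of_nonneg_left hb2 hK0
    have h2 : (Q : ℝ) * (ε * X) = Q * (ε / 2 * X) + Q * (ε / 2 * X) := by ring
    linarith
  exact le_of_mul_le_mul_left hfin hQr

end Pool.Agent.K9h55.GV
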